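import Mathlib

/-! Embedded symmetric submanifolds of a Euclidean space, antipodal sets, mod 2 Betti numbers. -/

namespace V11202.TN

open scoped ContDiff
open CategoryTheory AlgebraicTopology

variable {F : Type} [NormedAddCommGroup F] [InnerProductSpace ℝ F]

/-- `M` is a `C^∞` embedded submanifold of dimension `d` of the Euclidean space `F`: every point of
`M` has an open neighbourhood `U` in `F` and a smooth map `φ : ℝᵈ → F` with image `M ∩ U` that has
a smooth left inverse `ψ` defined on `U`. -/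
def IsSubmfd (d : ℕ) (M : Set F) : Prop :=
  ∀ p ∈ M, ∃ (U : Set F) (φ : EuclideanSpace ℝ (Fin d) → F) (ψ : F → EuclideanSpace ℝ (Fin d)),
    IsOpen U ∧ p ∈ U ∧ ContDiff ℝ ∞ φ ∧ ContDiffOn ℝ ∞ ψ U ∧ (∀ v, ψ (φ v) = v) ∧
      Set.range φ = M ∩ U

/-- `v` is a tangent vector of `M` at `p`: the velocity at `p` of a curve in `M`. -/
def IsTangent (M : Set F) (p v : F) : Prop :=
  ∃ γ : ℝ → F, γ 0 = p ∧ (∀ t, γ t ∈ M) ∧ HasDerivAt γ v 0

/-- The linear isometry `S` of the ambient space preserves `M`, fixes `p` and is `-id` on the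
tangent vectors of `M` at `p`; so its restriction to `M` (with the induced Riemannian metric) is
the geodesic symmetry of `M` at `p`. -/
def IsGeodSymm (M : Set F) (p : F) (S : F ≃ₗᵢ[ℝ] F) : Prop :=
  S '' M = M ∧ S p = p ∧ ∀ v, IsTangent M p v → S v = -v

/-- A set is antipodal (for the family `s` of symmetries) if all its points are fixed by the
symmetries at all its points. -/
def Antipodal (s : F → F ≃ₗᵢ[ℝ] F) (A : Set F) : Prop := ∀ p ∈ A, ∀ q ∈ A, s p q = q

/-- The singular homology of `M` in degree `n` with coefficients in `ℤ/2`. -/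
noncomputable abbrev Hom2 (M : Type) [TopologicalSpace M] (n : ℕ) : ModuleCat.{0} (ZMod 2) :=
  ((singularHomologyFunctor (ModuleCat.{0} (ZMod 2)) n).obj (ModuleCat.of (ZMod 2) (ZMod 2))).obj
    (TopCat.of M)

/-- The total mod 2 Betti number `∑ₙ dim Hₙ(M; ℤ/2)`. -/
noncomputable def totalBetti (M : Type) [TopologicalSpace M] : Cardinal :=
  Cardinal.sum fun n : ℕ => Module.rank (ZMod 2) (Hom2 M n)

end V11202.TN
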