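import Pool.Agent.V11202.TN.Sym
import Pool.Agent.V11202.TN.Defs

/-! Charts of the Segre manifold, tangent vectors. -/

namespace V11202.TN

open scoped RealInnerProductSpace ContDiff Topology

variable (x y z : Sph)

/-- contraction with `y ⊗ z` -/
noncomputable def k1 (y z : V) : E →ₗ[ℝ] V where
  toFun q := WithLp.toLp 2 fun i => ∑ j, ∑ k, q (i, j, k) * (y j * z k)
  map_add' q r := by
    ext i
    simp only [PiLp.add_apply, add_mul, Finset.sum_add_distrib]
  map_smul' c q := by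
    ext i
    simp only [PiLp.smul_apply, smul_eq_mul, RingHom.id_apply, Finset.mul_sum]
    refine Finset.sum_congr rfl fun j _ => Finset.sum_congr rfl fun k _ => by ring

/-- contraction with `x ⊗ · ⊗ z` -/
noncomputable def k2 (x z : V) : E →ₗ[ℝ] V where
  toFun q := WithLp.toLp 2 fun j => ∑ i, ∑ k, q (i, j, k) * (x i * z k)
  map_add' q r := by
    ext i
    simp only [PiLp.add_apply, add_mul, Finset.sum_add_distrib]
  map_smul' c q := by
    ext i
    simp only [PiLp.smul_apply, smul_eq_mul, RingHom.id_apply, Finset.mul_sum]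
    refine Finset.sum_congr rfl fun j _ => Finset.sum_congr rfl fun k _ => by ring

/-- contraction with `x ⊗ y` -/
noncomputable def k3 (x y : V) : E →ₗ[ℝ] V where
  toFun q := WithLp.toLp 2 fun k => ∑ i, ∑ j, q (i, j, k) * (x i * y j)
  map_add' q r := by
    ext i
    simp only [PiLp.add_apply, add_mul, Finset.sum_add_distrib]
  map_smul' c q := by
    ext i
    simp only [PiLp.smul_apply, smul_eq_mul, RingHom.id_apply, Finset.mul_sum]
    refine Finset.sum_congr rfl fun j _ => Finset.sum_congr rfl fun k _ => by ring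

lemma k1_T (y z a b c : V) : k1 y z (T a b c) = (⟪y, b⟫ * ⟪z, c⟫) • a := by
  ext i
  show ∑ j, ∑ k, (a i * b j * c k) * (y j * z k) = (⟪y, b⟫ * ⟪z, c⟫) * a i
  rw [inner_eq_sum, inner_eq_sum, Finset.sum_mul_sum, Finset.sum_mul]
  refine Finset.sum_congr rfl fun j _ => ?_
  rw [Finset.sum_mul]
  refine Finset.sum_congr rfl fun k _ => by ring

lemma k2_T (x z a b c : V) : k2 x z (T a b c) = (⟪x, a⟫ * ⟪z, c⟫) • b := by
  ext j
  show ∑ i, ∑ k, (a i * b j * c k) * (x i * z k) = (⟪x, a⟫ * ⟪z, c⟫) * b j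
  rw [inner_eq_sum, inner_eq_sum, Finset.sum_mul_sum, Finset.sum_mul]
  refine Finset.sum_congr rfl fun j _ => ?_
  rw [Finset.sum_mul]
  refine Finset.sum_congr rfl fun k _ => by ring

lemma k3_T (x y a b c : V) : k3 x y (T a b c) = (⟪x, a⟫ * ⟪y, b⟫) • c := by
  ext k
  show ∑ i, ∑ j, (a i * b j * c k) * (x i * y j) = (⟪x, a⟫ * ⟪y, b⟫) * c k
  rw [inner_eq_sum, inner_eq_sum, Finset.sum_mul_sum, Finset.sum_mul]
  refine Finset.sum_congr rfl fun j _ => ?_
  rw [Finset.sum_mul]
  refine Finset.sum_congr rfl fun k _ => by ring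

/-- orthogonal complement of a point of the sphere -/
noncomputable abbrev Oc (x : Sph) : Submodule ℝ V := (Submodule.span ℝ {(x : V)})ᗮ

/-- model space of the chart -/
abbrev W (x y z : Sph) := Oc x × Oc y × Oc z

lemma inner_Oc (x : Sph) (u : Oc x) : ⟪(x : V), (u : V)⟫ = 0 :=
  Submodule.mem_orthogonal_singleton_iff_inner_right.1 u.2

lemma inner_x_add (x : Sph) (u : Oc x) : ⟪(x : V), (x : V) + u⟫ = 1 := by
  rw [inner_add_right, inner_Oc, real_inner_self_eq_norm_sq, norm_sph]; norm_num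

lemma x_add_ne (x : Sph) (u : Oc x) : (x : V) + u ≠ 0 := by
  intro h
  have := inner_x_add x u
  rw [h, inner_zero_right] at this
  exact zero_ne_one this

/-- scale -/
noncomputable def kap (x : Sph) (u : Oc x) : ℝ := ‖(x : V) + u‖⁻¹

lemma kap_pos (x : Sph) (u : Oc x) : 0 < kap x u := inv_pos.2 (norm_pos_iff.2 (x_add_ne x u))

/-- The parametrisation. -/
noncomputable def phi' (w : W x y z) : E :=
  (kap x w.1 * kap y w.2.1 * kap z w.2.2) • T (x + w.1) (y + w.2.1) (z + w.2.2)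

/-- The inverse of the parametrisation -/
noncomputable def psi' (q : E) : W x y z :=
  ((Oc x).orthogonalProjectionOnto ((⟪T x y z, q⟫)⁻¹ • k1 y z q),
    (Oc y).orthogonalProjectionOnto ((⟪T x y z, q⟫)⁻¹ • k2 x z q),
    (Oc z).orthogonalProjectionOnto ((⟪T x y z, q⟫)⁻¹ • k3 x y q))

/-- domain of the chart -/
def Uo : Set E := {q | 0 < ⟪T x y z, q⟫}

lemma isOpen_Uo : IsOpen (Uo x y z) :=
  isOpen_lt continuous_const (continuous_const.inner continuous_id)

lemma proj_add (x : Sph) (u : Oc x) : (Oc x).orthogonalProjectionOnto ((x : V) + u) = u := by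
  rw [map_add, Submodule.orthogonalProjectionOnto_orthogonalComplement_singleton_eq_zero,
    Submodule.orthogonalProjectionOnto_mem_subspace_eq_self, zero_add]

lemma inner_phi' (w : W x y z) :
    ⟪T x y z, phi' x y z w⟫ = kap x w.1 * kap y w.2.1 * kap z w.2.2 := by
  unfold phi'
  rw [real_inner_smul_right, inner_T, inner_x_add, inner_x_add, inner_x_add]
  ring

lemma psi_phi' (w : W x y z) : psi' x y z (phi' x y z w) = w := by
  have h1 := kap_pos x w.1
  have h2 := kap_pos y w.2.1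
  have h3 := kap_pos z w.2.2
  have hne : kap x w.1 * kap y w.2.1 * kap z w.2.2 ≠ 0 := by positivity
  unfold psi'
  rw [inner_phi']
  have e1 : (kap x w.1 * kap y w.2.1 * kap z w.2.2)⁻¹ • k1 y z (phi' x y z w) = (x : V) + w.1 := by
    unfold phi'
    rw [map_smul, k1_T, inner_x_add, inner_x_add, smul_smul, inv_mul_cancel₀ hne, mul_one,
      one_smul, one_smul]
  have e2 : (kap x w.1 * kap y w.2.1 * kap z w.2.2)⁻¹ • k2 x z (phi' x y z w) =
      (y : V) + w.2.1 := by
    unfold phi'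
    rw [map_smul, k2_T, inner_x_add, inner_x_add, smul_smul, inv_mul_cancel₀ hne, mul_one,
      one_smul, one_smul]
  have e3 : (kap x w.1 * kap y w.2.1 * kap z w.2.2)⁻¹ • k3 x y (phi' x y z w) =
      (z : V) + w.2.2 := by
    unfold phi'
    rw [map_smul, k3_T, inner_x_add, inner_x_add, smul_smul, inv_mul_cancel₀ hne, mul_one,
      one_smul, one_smul]
  rw [e1, e2, e3, proj_add, proj_add, proj_add]

lemma phi'_eq (w : W x y z) : phi' x y z w =
    T (kap x w.1 • ((x : V) + w.1)) (kap y w.2.1 • ((y : V) + w.2.1))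
      (kap z w.2.2 • ((z : V) + w.2.2)) := by
  unfold phi'
  rw [T_smul1, T_smul2, T_smul3, smul_smul, smul_smul]

lemma norm_kap (x : Sph) (u : Oc x) : ‖kap x u • ((x : V) + u)‖ = 1 := by
  unfold kap
  rw [norm_smul, norm_inv, norm_norm, inv_mul_cancel₀ (norm_ne_zero_iff.2 (x_add_ne x u))]

lemma phi'_mem (w : W x y z) : phi' x y z w ∈ Seg := by
  rw [phi'_eq]
  exact ⟨_, _, _, norm_kap _ _, norm_kap _ _, norm_kap _ _, rfl⟩

lemma phi'_memU (w : W x y z) : phi' x y z w ∈ Uo x y z := by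
  have h1 := kap_pos x w.1
  have h2 := kap_pos y w.2.1
  have h3 := kap_pos z w.2.2
  show 0 < ⟪T x y z, phi' x y z w⟫
  rw [inner_phi']; positivity

lemma exists_u {x : Sph} {a : V} (ha : ‖a‖ = 1) (h : ⟪(x : V), a⟫ ≠ 0) :
    ∃ u : Oc x, (x : V) + u = (⟪(x : V), a⟫)⁻¹ • a ∧ kap x u = |⟪(x : V), a⟫| := by
  have hmem : (⟪(x : V), a⟫)⁻¹ • a - x ∈ Oc x := by
    rw [Submodule.mem_orthogonal_singleton_iff_inner_right, inner_sub_right, real_inner_smul_right,
      inv_mul_cancel₀ h, real_inner_self_eq_norm_sq, norm_sph]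
    norm_num
  refine ⟨⟨_, hmem⟩, ?_, ?_⟩
  · show (x : V) + ((⟪(x : V), a⟫)⁻¹ • a - x) = _
    abel
  · unfold kap
    show ‖(x : V) + ((⟪(x : V), a⟫)⁻¹ • a - x)‖⁻¹ = _
    have : (x : V) + ((⟪(x : V), a⟫)⁻¹ • a - x) = (⟪(x : V), a⟫)⁻¹ • a := by abel
    rw [this, norm_smul, ha, mul_one, norm_inv, inv_inv, Real.norm_eq_abs]

lemma range_phi' : Set.range (phi' x y z) = Seg ∩ Uo x y z := by
  apply Set.Subset.antisymm
  · rintro _ ⟨w, rfl⟩; exact ⟨phi'_mem _ _ _ _, phi'_memU _ _ _ _⟩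
  · rintro q ⟨⟨a, b, c, ha, hb, hc, rfl⟩, hq⟩
    have hq' : 0 < ⟪(x : V), a⟫ * ⟪(y : V), b⟫ * ⟪(z : V), c⟫ := by
      have : 0 < ⟪T x y z, T a b c⟫ := hq
      rwa [inner_T] at this
    have ne1 : ⟪(x : V), a⟫ ≠ 0 := by
      intro h; rw [h] at hq'; simp at hq'
    have ne2 : ⟪(y : V), b⟫ ≠ 0 := by
      intro h; rw [h] at hq'; simp at hq'
    have ne3 : ⟪(z : V), c⟫ ≠ 0 := by
      intro h; rw [h] at hq'; simp at hq'
    obtain ⟨u, hu, hu'⟩ := exists_u (x := x) ha ne1
    obtain ⟨v, hv, hv'⟩ := exists_u (x := y) hb ne2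
    obtain ⟨w, hw, hw'⟩ := exists_u (x := z) hc ne3
    refine ⟨(u, v, w), ?_⟩
    unfold phi'
    simp only
    rw [hu, hv, hw, hu', hv', hw', T_smul1, T_smul2, T_smul3, smul_smul, smul_smul, smul_smul,
      ← abs_mul, ← abs_mul, abs_of_pos hq']
    have : ⟪(x : V), a⟫ * ⟪(y : V), b⟫ * ⟪(z : V), c⟫ * ⟪(x : V), a⟫⁻¹ * ⟪(y : V), b⟫⁻¹ *
        ⟪(z : V), c⟫⁻¹ = 1 := by
      field_simp
    rw [this, one_smul]

lemma contDiff_T : ContDiff ℝ ∞ (fun q : V × V × V => T q.1 q.2.1 q.2.2) := by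
  rw [contDiff_euclidean]
  intro i
  simp only [T_apply]
  have h1 : ContDiff ℝ ∞ (fun q : V × V × V => q.1 i.1) :=
    (contDiff_euclidean.1 contDiff_fst) i.1
  have h2 : ContDiff ℝ ∞ (fun q : V × V × V => q.2.1 i.2.1) :=
    (contDiff_euclidean.1 (contDiff_fst.comp contDiff_snd)) i.2.1
  have h3 : ContDiff ℝ ∞ (fun q : V × V × V => q.2.2 i.2.2) :=
    (contDiff_euclidean.1 (contDiff_snd.comp contDiff_snd)) i.2.2
  exact (h1.mul h2).mul h3

lemma contDiff_add (x : Sph) : ContDiff ℝ ∞ (fun u : Oc x => (x : V) + u) :=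
  contDiff_const.add (Oc x).subtypeL.contDiff

lemma contDiff_kap (x : Sph) : ContDiff ℝ ∞ (kap x) := by
  unfold kap
  exact ((contDiff_add x).norm ℝ (fun u => x_add_ne x u)).inv
    (fun u => norm_ne_zero_iff.2 (x_add_ne x u))

lemma contDiff_phi' : ContDiff ℝ ∞ (phi' x y z) := by
  unfold phi'
  have p1 : ContDiff ℝ ∞ (fun w : W x y z => w.1) := contDiff_fst
  have p2 : ContDiff ℝ ∞ (fun w : W x y z => w.2.1) := contDiff_fst.comp contDiff_snd
  have p3 : ContDiff ℝ ∞ (fun w : W x y z => w.2.2) := contDiff_snd.comp contDiff_snd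
  have k1 := (contDiff_kap x).comp p1
  have k2 := (contDiff_kap y).comp p2
  have k3 := (contDiff_kap z).comp p3
  have a1 := (contDiff_add x).comp p1
  have a2 := (contDiff_add y).comp p2
  have a3 := (contDiff_add z).comp p3
  exact ((k1.mul k2).mul k3).smul (contDiff_T.comp (a1.prodMk (a2.prodMk a3)))

lemma contDiffOn_psi' : ContDiffOn ℝ ∞ (psi' x y z) (Uo x y z) := by
  unfold psi'
  have h0 : ContDiffOn ℝ ∞ (fun q : E => (⟪T x y z, q⟫)⁻¹) (Uo x y z) := by
    refine ContDiffOn.inv ?_ fun q hq => ne_of_gt hq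
    exact (contDiff_const.inner ℝ contDiff_id).contDiffOn
  have h1 : ContDiffOn ℝ ∞ (fun q : E => k1 y z q) (Uo x y z) :=
    (LinearMap.toContinuousLinearMap (k1 y z)).contDiff.contDiffOn
  have h2 : ContDiffOn ℝ ∞ (fun q : E => k2 x z q) (Uo x y z) :=
    (LinearMap.toContinuousLinearMap (k2 x z)).contDiff.contDiffOn
  have h3 : ContDiffOn ℝ ∞ (fun q : E => k3 x y q) (Uo x y z) :=
    (LinearMap.toContinuousLinearMap (k3 x y)).contDiff.contDiffOn
  exact ((Oc x).orthogonalProjectionOnto.contDiff.comp_contDiffOn (h0.smul h1)).prodMk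
    (((Oc y).orthogonalProjectionOnto.contDiff.comp_contDiffOn (h0.smul h2)).prodMk
      ((Oc z).orthogonalProjectionOnto.contDiff.comp_contDiffOn (h0.smul h3)))

lemma finrank_Oc (x : Sph) : Module.finrank ℝ (Oc x) = 3 := by
  have : Fact (Module.finrank ℝ V = 3 + 1) := ⟨by simp⟩
  exact Submodule.finrank_orthogonal_span_singleton (n := 3) (by
    intro h
    have := norm_sph x
    rw [h, norm_zero] at this
    exact zero_ne_one this)

/-- linear coordinates -/
noncomputable def eW : EuclideanSpace ℝ (Fin 9) ≃L[ℝ] W x y z :=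
  ContinuousLinearEquiv.ofFinrankEq (by
    rw [Module.finrank_prod, Module.finrank_prod, finrank_Oc, finrank_Oc, finrank_Oc]
    simp)

theorem isSubmfd_Seg : IsSubmfd 9 Seg := by
  intro p hp
  obtain ⟨q, hq⟩ := surjective_pr ⟨p, hp⟩
  have hq' : T q.1 q.2.1 q.2.2 = p := congrArg Subtype.val hq
  let e := eW q.1 q.2.1 q.2.2
  refine ⟨Uo q.1 q.2.1 q.2.2, fun v => phi' q.1 q.2.1 q.2.2 (e v),
    fun r => e.symm (psi' q.1 q.2.1 q.2.2 r), isOpen_Uo _ _ _, ?_, ?_, ?_, ?_, ?_⟩
  · show 0 < ⟪T q.1 q.2.1 q.2.2, p⟫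
    rw [← hq', real_inner_self_eq_norm_sq, norm_T, norm_sph, norm_sph, norm_sph]; norm_num
  · exact (contDiff_phi' _ _ _).comp e.contDiff
  · exact e.symm.contDiff.comp_contDiffOn (contDiffOn_psi' _ _ _)
  · intro v
    show e.symm (psi' _ _ _ (phi' _ _ _ (e v))) = v
    rw [psi_phi', ContinuousLinearEquiv.symm_apply_apply]
  · rw [← range_phi']
    exact e.surjective.range_comp (phi' q.1 q.2.1 q.2.2)

lemma Sy_phi' (w : W x y z) : Sy x y z (phi' x y z w) = phi' x y z (-w) := by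
  have h1 : ∀ (x : Sph) (u : Oc x), R x ((x : V) + u) = (x : V) + ((-u : Oc x) : V) := by
    intro x u
    rw [R_add, R_self (norm_sph x), R_orth (inner_Oc x u)]; rfl
  have h2 : ∀ (x : Sph) (u : Oc x), kap x u = kap x (-u) := by
    intro x u
    unfold kap
    rw [← h1, norm_R (norm_sph x)]
  unfold phi'
  rw [map_smul, Sy_T, h1, h1, h1, h2 x w.1, h2 y w.2.1, h2 z w.2.2]
  rfl

lemma phi'_zero : phi' x y z 0 = T x y z := by
  unfold phi' kap
  simp [norm_sph]

lemma Sy_tangent {v : E} (hv : IsTangent Seg (T x y z) v) : Sy x y z v = -v := by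
  obtain ⟨γ, h0, hM, hd⟩ := hv
  have hU : T (x : V) y z ∈ Uo x y z := by
    rw [← phi'_zero]; exact phi'_memU _ _ _ _
  have hev : ∀ᶠ t in 𝓝 (0 : ℝ), γ t ∈ Uo x y z := by
    refine hd.continuousAt.eventually_mem ?_
    rw [h0]
    exact (isOpen_Uo x y z).mem_nhds hU
  have hev2 : ∀ᶠ t in 𝓝 (0 : ℝ), γ t = phi' x y z (psi' x y z (γ t)) := by
    filter_upwards [hev] with t ht
    have : γ t ∈ Set.range (phi' x y z) := by
      rw [range_phi']; exact ⟨hM t, ht⟩
    obtain ⟨w, hw⟩ := this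
    rw [← hw, psi_phi']
  have hψ : DifferentiableAt ℝ (psi' x y z) (γ 0) := by
    have := (contDiffOn_psi' x y z).contDiffAt ((isOpen_Uo x y z).mem_nhds hU)
    rw [h0]
    exact this.differentiableAt (by simp)
  have hη := hψ.hasFDerivAt.comp_hasDerivAt (0 : ℝ) hd
  set w := fderiv ℝ (psi' x y z) (γ 0) v with hw
  have hψ0 : psi' x y z (γ 0) = 0 := by
    rw [h0, ← phi'_zero, psi_phi']
  have hφ : HasFDerivAt (phi' x y z) (fderiv ℝ (phi' x y z) 0) 0 :=
    ((contDiff_phi' x y z).contDiffAt.differentiableAt (by simp)).hasFDerivAt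
  set D := fderiv ℝ (phi' x y z) 0 with hD
  have hcomp : HasDerivAt (fun t => phi' x y z (psi' x y z (γ t))) (D w) 0 := by
    have hφ' : HasFDerivAt (phi' x y z) D ((psi' x y z ∘ γ) 0) := by
      show HasFDerivAt (phi' x y z) D (psi' x y z (γ 0))
      rw [hψ0]; exact hφ
    exact hφ'.comp_hasDerivAt (0 : ℝ) hη
  have hvD : v = D w := hd.unique (hcomp.congr_of_eventuallyEq hev2)
  have hneg : HasFDerivAt (fun u => phi' x y z (-u)) (-D) 0 := by
    have h1 : HasFDerivAt (fun u : W x y z => -u) (-(ContinuousLinearMap.id ℝ (W x y z))) 0 :=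
      (hasFDerivAt_id (0 : W x y z)).neg
    have h2 : HasFDerivAt (phi' x y z) D (-(0 : W x y z)) := by rw [neg_zero]; exact hφ
    have h3 := h2.comp (0 : W x y z) h1
    have e : D.comp (-(ContinuousLinearMap.id ℝ (W x y z))) = -D := by
      apply ContinuousLinearMap.ext
      intro u
      show D (-u) = -(D u)
      exact map_neg D u
    rw [e] at h3
    exact h3
  have hS : HasFDerivAt (fun u => Sy x y z (phi' x y z u))
      ((Sy x y z).toContinuousLinearEquiv.toContinuousLinearMap.comp D) 0 :=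
    (Sy x y z).toContinuousLinearEquiv.toContinuousLinearMap.hasFDerivAt.comp (0 : W x y z) hφ
  have heq : (fun u => Sy x y z (phi' x y z u)) = fun u => phi' x y z (-u) := by
    funext u; exact Sy_phi' x y z u
  rw [heq] at hS
  have := hS.unique hneg
  have h3 := congrArg (fun L : W x y z →L[ℝ] E => L w) this
  simp only at h3
  rw [hvD]
  exact h3

lemma Sy_image : (Sy x y z) '' Seg = Seg := by
  apply Set.Subset.antisymm
  · rintro _ ⟨_, ⟨a, b, c, ha, hb, hc, rfl⟩, rfl⟩
    rw [Sy_T]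
    exact ⟨_, _, _, by rw [norm_R (norm_sph x)]; exact ha, by rw [norm_R (norm_sph y)]; exact hb,
      by rw [norm_R (norm_sph z)]; exact hc, rfl⟩
  · rintro _ ⟨a, b, c, ha, hb, hc, rfl⟩
    have hinv : ∀ (x : Sph) (a : V), R x (R x a) = a := by
      intro x a
      unfold R
      rw [inner_sub_right, real_inner_smul_right, real_inner_self_eq_norm_sq, norm_sph]
      module
    refine ⟨T (R x a) (R y b) (R z c), ⟨_, _, _, by rw [norm_R (norm_sph x)]; exact ha,
      by rw [norm_R (norm_sph y)]; exact hb, by rw [norm_R (norm_sph z)]; exact hc, rfl⟩, ?_⟩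
    rw [Sy_T, hinv, hinv, hinv]

theorem isGeodSymm_sy (p : E) (hp : p ∈ Seg) : IsGeodSymm Seg p (sy p) := by
  obtain ⟨q, hq⟩ := surjective_pr ⟨p, hp⟩
  have hq' : (pr q : E) = p := congrArg Subtype.val hq
  rw [← hq', sy_pr]
  refine ⟨Sy_image _ _ _, ?_, fun v hv => ?_⟩
  · rw [pr_coe, Sy_T, R_self (norm_sph _), R_self (norm_sph _), R_self (norm_sph _)]
  · exact Sy_tangent _ _ _ hv

theorem isCompact_Seg : IsCompact Seg := by
  have : Seg = Set.range (fun q : X => (pr q : E)) := by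
    ext p
    constructor
    · intro hp
      obtain ⟨q, hq⟩ := surjective_pr ⟨p, hp⟩
      exact ⟨q, congrArg Subtype.val hq⟩
    · rintro ⟨q, rfl⟩; exact (pr q).2
  rw [this]
  exact isCompact_range (continuous_subtype_val.comp continuous_pr)

theorem isConnected_Seg : IsConnected Seg := by
  have : Seg = Set.range (fun q : X => (pr q : E)) := by
    ext p
    constructor
    · intro hp
      obtain ⟨q, hq⟩ := surjective_pr ⟨p, hp⟩
      exact ⟨q, congrArg Subtype.val hq⟩
    · rintro ⟨q, rfl⟩; exact (pr q).2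
  rw [this]
  have : ConnectedSpace Sph := by
    rw [← isConnected_iff_connectedSpace]
    refine isConnected_sphere ?_ _ (by norm_num)
    rw [← Module.finrank_eq_rank]
    simp
  exact isConnected_range (continuous_subtype_val.comp continuous_pr)

end V11202.TN
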