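import Mathlib

/-! Edge colourings of `K₅` by three equivalence relations. -/

namespace V11202.TN

/-- monochromatic or rainbow -/
def ok (a b c : Fin 3) : Bool := (a == b && b == c) || (a != b && b != c && a != c)

set_option synthInstance.maxSize 100000 in
set_option synthInstance.maxHeartbeats 4000000 in
lemma k5 : ∀ a01 a02 a12 : Fin 3, ok a01 a02 a12 = true → ∀ a03 a13 a23 : Fin 3,
    ok a01 a03 a13 = true → ok a02 a03 a23 = true → ok a12 a13 a23 = true →
    ∀ a04 a14 a24 a34 : Fin 3, ok a01 a04 a14 = true → ok a02 a04 a24 = true →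
    ok a12 a14 a24 = true → ok a03 a04 a34 = true → ok a13 a14 a34 = true →
    ok a23 a24 a34 = true →
    (a02 = a01 ∧ a12 = a01 ∧ a03 = a01 ∧ a13 = a01 ∧ a23 = a01 ∧ a04 = a01 ∧ a14 = a01 ∧
      a24 = a01 ∧ a34 = a01) := by
  decide +kernel

/-- A symmetric colouring of the pairs of `Fin 5` all of whose triangles are monochromatic or
rainbow is monochromatic. -/
lemma mono_of_ok (c : Fin 5 → Fin 5 → Fin 3)
    (h : ∀ i j k, i < j → j < k → ok (c i j) (c i k) (c j k) = true) :
    ∀ i j, i < j → c i j = c 0 1 := by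
  have := k5 (c 0 1) (c 0 2) (c 1 2) (h 0 1 2 (by decide) (by decide)) (c 0 3) (c 1 3) (c 2 3)
    (h 0 1 3 (by decide) (by decide)) (h 0 2 3 (by decide) (by decide))
    (h 1 2 3 (by decide) (by decide)) (c 0 4) (c 1 4) (c 2 4) (c 3 4)
    (h 0 1 4 (by decide) (by decide)) (h 0 2 4 (by decide) (by decide))
    (h 1 2 4 (by decide) (by decide)) (h 0 3 4 (by decide) (by decide))
    (h 1 3 4 (by decide) (by decide)) (h 2 3 4 (by decide) (by decide))
  obtain ⟨h1, h2, h3, h4, h5, h6, h7, h8, h9⟩ := this
  intro i j hij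
  fin_cases i <;> fin_cases j <;> first
    | (exfalso; revert hij; decide)
    | rfl
    | exact h1
    | exact h2
    | exact h3
    | exact h4
    | exact h5
    | exact h6
    | exact h7
    | exact h8
    | exact h9

end V11202.TN
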