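import Pool.Agent.V11202.TN.Lift

/-! Explicit singular simplices of the Segre manifold. -/

namespace V11202.TN

open CategoryTheory Limits Simplicial AlgebraicTopology

/-- standard basis vector -/
noncomputable abbrev bas (i : Fin 4) : V := EuclideanSpace.single i (1 : ℝ)

/-- Unnormalised vector of a signed simplex. -/
noncomputable def vv {n : ℕ} (l : Fin (n + 1) → Fin 4) (a : Fin (n + 1) → ZMod 2) (t : Del n) : V :=
  ∑ k, (t k * sg (a k)) • bas (l k)

lemma vv_coord {n : ℕ} {l : Fin (n + 1) → Fin 4} (hl : Function.Injective l)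
    (a : Fin (n + 1) → ZMod 2) (t : Del n) (k : Fin (n + 1)) :
    vv l a t (l k) = t k * sg (a k) := by
  unfold vv
  rw [WithLp.ofLp_sum, Finset.sum_apply, Finset.sum_eq_single k]
  · simp
  · intro j _ hj
    have : l k ≠ l j := fun h => hj (hl h).symm
    simp [this]
  · intro h; exact absurd (Finset.mem_univ _) h

lemma vv_ne {n : ℕ} {l : Fin (n + 1) → Fin 4} (hl : Function.Injective l)
    (a : Fin (n + 1) → ZMod 2) (t : Del n) : vv l a t ≠ 0 := by
  intro h
  have h1 : ∀ k, t k = 0 := by
    intro k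
    have := vv_coord hl a t k
    rw [h] at this
    rcases sg_cases (a k) with h2 | h2 <;> rw [h2] at this <;> simp at this <;> linarith
  have := t.2.2
  have h2 : ∑ k, t k = 1 := this
  simp [h1] at h2

lemma continuous_vv {n : ℕ} (l : Fin (n + 1) → Fin 4) (a : Fin (n + 1) → ZMod 2) :
    Continuous (vv l a) := by
  unfold vv
  refine continuous_finsetSum _ fun k _ => ?_
  have h : Continuous fun t : Del n => t k :=
    (continuous_apply k).comp continuous_subtype_val
  exact (h.mul continuous_const).smul continuous_const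

/-- normalisation -/
noncomputable def nv {n : ℕ} {l : Fin (n + 1) → Fin 4} (hl : Function.Injective l)
    (a : Fin (n + 1) → ZMod 2) (t : Del n) : Sph :=
  ⟨‖vv l a t‖⁻¹ • vv l a t, by
    rw [mem_sphere_zero_iff_norm, norm_smul, norm_inv, norm_norm,
      inv_mul_cancel₀ (norm_ne_zero_iff.2 (vv_ne hl a t))]⟩

lemma continuous_nv {n : ℕ} {l : Fin (n + 1) → Fin 4} (hl : Function.Injective l)
    (a : Fin (n + 1) → ZMod 2) : Continuous (nv hl a) := by
  refine Continuous.subtype_mk ?_ _
  exact ((continuous_vv l a).norm.inv₀ fun t => norm_ne_zero_iff.2 (vv_ne hl a t)).smul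
    (continuous_vv l a)

lemma vv_add {n : ℕ} (l : Fin (n + 1) → Fin 4) (a : Fin (n + 1) → ZMod 2) (b : ZMod 2)
    (t : Del n) : vv l (fun k => b + a k) t = sg b • vv l a t := by
  unfold vv
  rw [Finset.smul_sum]
  refine Finset.sum_congr rfl fun k _ => ?_
  rw [sg_add, smul_smul]
  congr 1; ring

lemma nv_add {n : ℕ} {l : Fin (n + 1) → Fin 4} (hl : Function.Injective l)
    (a : Fin (n + 1) → ZMod 2) (b : ZMod 2) (t : Del n) :
    nv hl (fun k => b + a k) t = sgS b (nv hl a t) := by
  apply Subtype.ext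
  show ‖vv l (fun k => b + a k) t‖⁻¹ • vv l (fun k => b + a k) t =
    sg b • (‖vv l a t‖⁻¹ • vv l a t)
  rw [vv_add, norm_sg_smul, smul_comm]

lemma vv_face {n : ℕ} (l : Fin (n + 2) → Fin 4) (a : Fin (n + 2) → ZMod 2) (i : Fin (n + 2))
    (t : Del n) : vv l a (face i t) = vv (fun k => l (i.succAbove k)) (fun k => a (i.succAbove k)) t := by
  unfold vv
  have h : ∀ k, (face i t) k = ∑ j ∈ Finset.univ.filter (fun j => i.succAbove j = k), t j := by
    intro k
    show (FunOnFinite.linearMap ℝ ℝ (Fin.succAbove i) t) k = _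
    rw [FunOnFinite.linearMap_apply_apply]
  simp only [h, Finset.sum_mul, Finset.sum_smul]
  rw [← Finset.sum_fiberwise Finset.univ (fun j => i.succAbove j)
    (fun k => (t k * sg (a (i.succAbove k))) • bas (l (i.succAbove k)))]
  refine Finset.sum_congr rfl fun k _ => Finset.sum_congr rfl fun j hj => ?_
  rw [(Finset.mem_filter.1 hj).2]

lemma nv_face {n : ℕ} {l : Fin (n + 2) → Fin 4} (hl : Function.Injective l)
    (a : Fin (n + 2) → ZMod 2) (i : Fin (n + 2)) (t : Del n) :
    nv hl a (face i t) = nv (l := fun k => l (i.succAbove k))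
      (fun _ _ h => Fin.succAbove_right_injective (hl h)) (fun k => a (i.succAbove k)) t := by
  apply Subtype.ext
  show ‖vv l a (face i t)‖⁻¹ • vv l a (face i t) = _
  rw [vv_face]; rfl

lemma vv_vertex {n : ℕ} (l : Fin (n + 1) → Fin 4) (a : Fin (n + 1) → ZMod 2) (k : Fin (n + 1)) :
    vv l a (stdSimplex.vertex k) = sg (a k) • bas (l k) := by
  unfold vv
  rw [Finset.sum_eq_single k]
  · simp
  · intro j _ hj
    have : (stdSimplex.vertex (S := ℝ) k : Del n) j = 0 := by
      rw [stdSimplex.vertex_coe, Pi.single_apply, if_neg hj]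
    rw [this, zero_mul, zero_smul]
  · intro h; exact absurd (Finset.mem_univ _) h

lemma norm_bas (i : Fin 4) : ‖bas i‖ = 1 := by
  simp

/-- basis vector in the sphere -/
noncomputable def basS (i : Fin 4) : Sph := ⟨bas i, by rw [mem_sphere_zero_iff_norm, norm_bas]⟩

lemma nv_vertex {n : ℕ} {l : Fin (n + 1) → Fin 4} (hl : Function.Injective l)
    (a : Fin (n + 1) → ZMod 2) (k : Fin (n + 1)) :
    nv hl a (stdSimplex.vertex k) = sgS (a k) (basS (l k)) := by
  apply Subtype.ext
  show ‖vv l a (stdSimplex.vertex k)‖⁻¹ • vv l a (stdSimplex.vertex k) = sg (a k) • bas (l k)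
  rw [vv_vertex, norm_sg_smul, norm_bas, inv_one, one_smul]

lemma hs_bas (i : Fin 4) : hs (basS i) = 0 := by
  unfold hs basS
  fin_cases i <;> simp

/-- The lifted simplex. -/
noncomputable def tau {n : ℕ} {l : Fin (n + 1) → Fin 4} (hl : Function.Injective l)
    (c : Fin (n + 1) → Gam) : C(Del n, X) where
  toFun t := (nv hl (fun k => (c k).1) t, nv hl (fun k => (c k).2) t,
    nv hl (fun k => (c k).1 + (c k).2) t)
  continuous_toFun := (continuous_nv hl _).prodMk ((continuous_nv hl _).prodMk (continuous_nv hl _))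

/-- The simplex. -/
noncomputable def sig {n : ℕ} {l : Fin (n + 1) → Fin 4} (hl : Function.Injective l)
    (c : Fin (n + 1) → Gam) : C(Del n, Seg) := ⟨fun t => pr (tau hl c t), continuous_pr.comp (tau hl c).continuous⟩

lemma tau_add {n : ℕ} {l : Fin (n + 1) → Fin 4} (hl : Function.Injective l)
    (c : Fin (n + 1) → Gam) (g : Gam) (t : Del n) : tau hl (fun k => g + c k) t = g +ᵥ tau hl c t := by
  rw [vadd_def]
  show (nv hl (fun k => g.1 + (c k).1) t, nv hl (fun k => g.2 + (c k).2) t,
    nv hl (fun k => (g.1 + (c k).1) + (g.2 + (c k).2)) t) = _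
  have : (fun k => (g.1 + (c k).1) + (g.2 + (c k).2)) =
      (fun k => (g.1 + g.2) + ((c k).1 + (c k).2)) := by
    funext k; ring
  rw [this, nv_add, nv_add, nv_add]
  rfl

lemma sig_add {n : ℕ} {l : Fin (n + 1) → Fin 4} (hl : Function.Injective l)
    (c : Fin (n + 1) → Gam) (g : Gam) : sig hl (fun k => g + c k) = sig hl c := by
  ext1 t
  show pr (tau hl (fun k => g + c k) t) = pr (tau hl c t)
  rw [tau_add]
  exact ((pr_eq_iff _ _).2 ⟨g, rfl⟩).symm

lemma sig_face {n : ℕ} {l : Fin (n + 2) → Fin 4} (hl : Function.Injective l)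
    (c : Fin (n + 2) → Gam) (i : Fin (n + 2)) :
    (sig hl c).comp (face i) = sig (l := fun k => l (i.succAbove k))
      (fun _ _ h => Fin.succAbove_right_injective (hl h)) (fun k => c (i.succAbove k)) := by
  ext1 t
  show pr (nv hl _ (face i t), nv hl _ (face i t), nv hl _ (face i t)) = _
  rw [nv_face, nv_face, nv_face]
  rfl

lemma cval_sig {n : ℕ} {l : Fin (n + 1) → Fin 4} (hl : Function.Injective l)
    (c : Fin (n + 1) → Gam) {f : (Fin (n + 1) → Gam) → ZMod 2} (hf : Inv f) :
    cval f (sig hl c) = f c := by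
  rw [cval_eq hf _ (tau hl c) (fun t => rfl)]
  congr 1
  funext k
  show lab (nv hl _ (stdSimplex.vertex k), nv hl _ (stdSimplex.vertex k),
    nv hl _ (stdSimplex.vertex k)) = _
  rw [nv_vertex, nv_vertex, nv_vertex]
  unfold lab
  simp only [hs_sgS, hs_bas, add_zero]

end V11202.TN
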