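import Pool.Agent.V11202.TN.Sym
import Pool.Agent.V11202.TN.Comb
import Pool.Agent.V11202.TN.Simp
import Pool.Agent.V11202.TN.Defs

/-! The two-number of the Segre manifold is `8`. -/

namespace V11202.TN

open scoped RealInnerProductSpace

lemma R_fix_iff {x a : V} (hx : ‖x‖ = 1) (ha : ‖a‖ = 1) : R x a = a ↔ a = x ∨ a = -x := by
  constructor
  · intro h
    have h1 : ⟪x, a⟫ • x = a := by
      unfold R at h
      have h2 : (2 * ⟪x, a⟫) • x = (2 : ℝ) • a := by
        rw [sub_eq_iff_eq_add] at h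
        rw [h, two_smul]
      rw [mul_smul] at h2
      exact smul_right_injective V (two_ne_zero (α := ℝ)) h2
    have h3 : |⟪x, a⟫| = 1 := by
      have := congrArg norm h1
      rw [norm_smul, hx, ha, mul_one, Real.norm_eq_abs] at this
      exact this
    rcases (abs_eq (by norm_num)).1 h3 with h4 | h4
    · left; rw [h4, one_smul] at h1; exact h1.symm
    · right; rw [h4, neg_one_smul] at h1; exact h1.symm
  · rintro (rfl | rfl)
    · exact R_self ha
    · have : (-x : V) = (-1 : ℝ) • x := by rw [neg_one_smul]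
      rw [this, R_smul, R_self hx]

lemma R_neg_iff {x a : V} (hx : ‖x‖ = 1) : R x a = -a ↔ ⟪x, a⟫ = 0 := by
  constructor
  · intro h
    unfold R at h
    rw [sub_eq_iff_eq_add, neg_add_cancel, smul_eq_zero] at h
    rcases h with h | h
    · linarith
    · rw [h, norm_zero] at hx; norm_num at hx
  · exact R_orth

/-- equal up to sign -/
def Par (a b : V) : Prop := b = a ∨ b = -a

lemma Par.symm {a b : V} (h : Par a b) : Par b a := by
  rcases h with rfl | rfl
  · left; rfl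
  · right; rw [neg_neg]

lemma Par.trans {a b c : V} (h : Par a b) (h' : Par b c) : Par a c := by
  rcases h with rfl | rfl <;> rcases h' with rfl | rfl
  · left; rfl
  · right; rfl
  · right; rfl
  · left; rw [neg_neg]

lemma Par.inner_ne {a b : V} (ha : ‖a‖ = 1) (h : Par a b) : ⟪a, b⟫ ≠ 0 := by
  rcases h with rfl | rfl
  · rw [real_inner_self_eq_norm_sq, ha]; norm_num
  · rw [inner_neg_right, real_inner_self_eq_norm_sq, ha]; norm_num

lemma sy_fix_iff (p q : X) : sy (pr p) (pr q : E) = pr q ↔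
    ((Par p.1 q.1 ∧ Par p.2.1 q.2.1 ∧ Par p.2.2 q.2.2) ∨
      (⟪(p.1 : V), q.1⟫ = 0 ∧ ⟪(p.2.1 : V), q.2.1⟫ = 0 ∧ Par p.2.2 q.2.2) ∨
      (⟪(p.1 : V), q.1⟫ = 0 ∧ Par p.2.1 q.2.1 ∧ ⟪(p.2.2 : V), q.2.2⟫ = 0) ∨
      (Par p.1 q.1 ∧ ⟪(p.2.1 : V), q.2.1⟫ = 0 ∧ ⟪(p.2.2 : V), q.2.2⟫ = 0)) := by
  rw [sy_pr, pr_coe, Sy_T, eq_comm, T_eq_iff (norm_sph _) (norm_sph _) (norm_sph _)
    (by rw [norm_R (norm_sph _)]; exact norm_sph _)
    (by rw [norm_R (norm_sph _)]; exact norm_sph _)
    (by rw [norm_R (norm_sph _)]; exact norm_sph _)]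
  rw [R_fix_iff (norm_sph _) (norm_sph _), R_fix_iff (norm_sph _) (norm_sph _),
    R_fix_iff (norm_sph _) (norm_sph _), R_neg_iff (norm_sph _), R_neg_iff (norm_sph _),
    R_neg_iff (norm_sph _)]
  rfl

lemma pr_eq_or_neg {p q : X} (h : Par p.1 q.1 ∧ Par p.2.1 q.2.1 ∧ Par p.2.2 q.2.2) :
    (pr q : E) = pr p ∨ (pr q : E) = -pr p := by
  have hn : ∀ x : V, -x = (-1 : ℝ) • x := fun x => by rw [neg_one_smul]
  obtain ⟨h1, h2, h3⟩ := h
  rw [pr_coe, pr_coe]
  rcases h1 with h1 | h1 <;> rcases h2 with h2 | h2 <;> rcases h3 with h3 | h3 <;>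
    rw [h1, h2, h3]
  · left; rfl
  · right; ext i; simp
  · right; ext i; simp
  · left; ext i; simp
  · right; ext i; simp
  · left; ext i; simp
  · left; ext i; simp
  · right; ext i; simp

/-- coordinates -/
noncomputable def co (p : X) : Fin 3 → V := ![p.1, p.2.1, p.2.2]

lemma norm_co (p : X) (k : Fin 3) : ‖co p k‖ = 1 := by
  fin_cases k
  · exact norm_sph _
  · exact norm_sph _
  · exact norm_sph _

lemma five_false (p : Fin 5 → X) (h : ∀ i j, sy (pr (p i)) (pr (p j) : E) = pr (p j))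
    (hne : ∀ i j, i ≠ j → (pr (p j) : E) ≠ pr (p i) ∧ (pr (p j) : E) ≠ -pr (p i)) : False := by
  classical
  have hex : ∀ i j, i ≠ j → ∃ c : Fin 3, Par (co (p i) c) (co (p j) c) ∧
      ∀ k, k ≠ c → ⟪co (p i) k, co (p j) k⟫ = 0 := by
    intro i j hij
    rcases (sy_fix_iff (p i) (p j)).1 (h i j) with h1 | ⟨h1, h2, h3⟩ | ⟨h1, h2, h3⟩ | ⟨h1, h2, h3⟩
    · exfalso
      rcases pr_eq_or_neg h1 with h2 | h2
      · exact (hne i j hij).1 h2
      · exact (hne i j hij).2 h2
    · refine ⟨2, h3, fun k hk => ?_⟩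
      fin_cases k
      · exact h1
      · exact h2
      · exact absurd rfl hk
    · refine ⟨1, h2, fun k hk => ?_⟩
      fin_cases k
      · exact h1
      · exact absurd rfl hk
      · exact h3
    · refine ⟨0, h1, fun k hk => ?_⟩
      fin_cases k
      · exact absurd rfl hk
      · exact h2
      · exact h3
  let c : Fin 5 → Fin 5 → Fin 3 := fun i j => if hij : i ≠ j then (hex i j hij).choose else 0
  have hc : ∀ i j, i ≠ j → Par (co (p i) (c i j)) (co (p j) (c i j)) ∧
      ∀ k, k ≠ c i j → ⟪co (p i) k, co (p j) k⟫ = 0 := by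
    intro i j hij
    have : c i j = (hex i j hij).choose := dif_pos hij
    rw [this]
    exact (hex i j hij).choose_spec
  have huniq : ∀ i j, i ≠ j → ∀ k, Par (co (p i) k) (co (p j) k) → c i j = k := by
    intro i j hij k hk
    by_contra hne
    exact hk.inner_ne (norm_co _ _) ((hc i j hij).2 k (Ne.symm hne))
  have hok : ∀ i j k, i < j → j < k → ok (c i j) (c i k) (c j k) = true := by
    intro i j k hij hjk
    have hik : i < k := hij.trans hjk
    have e1 : c i j = c i k → c j k = c i j := by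
      intro he
      refine huniq j k hjk.ne _ ?_
      have a1 := (hc i j hij.ne).1
      have a2 := (hc i k hik.ne).1
      rw [← he] at a2
      exact a1.symm.trans a2
    have e2 : c i j = c j k → c i k = c i j := by
      intro he
      refine huniq i k hik.ne _ ?_
      have a1 := (hc i j hij.ne).1
      have a2 := (hc j k hjk.ne).1
      rw [← he] at a2
      exact a1.trans a2
    have e3 : c i k = c j k → c i j = c i k := by
      intro he
      refine huniq i j hij.ne _ ?_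
      have a1 := (hc i k hik.ne).1
      have a2 := (hc j k hjk.ne).1
      rw [← he] at a2
      exact a1.trans a2.symm
    generalize c i j = a at *
    generalize c i k = b at *
    generalize c j k = d at *
    clear hij hjk hik
    revert a b d
    decide
  have hmono := mono_of_ok c hok
  obtain ⟨m, hm⟩ : ∃ m : Fin 3, m ≠ c 0 1 := by
    have : ∀ a : Fin 3, ∃ m, m ≠ a := by decide
    exact this _
  have hort : ∀ i j, i ≠ j → ⟪co (p i) m, co (p j) m⟫ = 0 := by
    intro i j hij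
    rcases lt_or_gt_of_ne hij with hlt | hlt
    · refine (hc i j hij).2 m ?_
      rw [hmono i j hlt]; exact hm
    · rw [real_inner_comm]
      refine (hc j i hij.symm).2 m ?_
      rw [hmono j i hlt]; exact hm
  have hon : Orthonormal ℝ (fun i => co (p i) m) :=
    ⟨fun i => norm_co _ _, fun i j hij => hort i j hij⟩
  have := hon.linearIndependent.fintype_card_le_finrank
  simp at this

lemma encard_le {A : Set E} (hA : A ⊆ Seg) (h : Antipodal sy A) : A.encard ≤ 8 := by
  let P : ℕ → Prop := fun n => ∃ f : Fin n → E, (∀ i, f i ∈ A) ∧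
    ∀ i j, i ≠ j → f j ≠ f i ∧ f j ≠ -f i
  have P0 : P 0 := ⟨fun i => i.elim0, fun i => i.elim0, fun i => i.elim0⟩
  have P5 : ¬ P 5 := by
    rintro ⟨f, hf, hne⟩
    have : ∀ i, ∃ p : X, (pr p : E) = f i := by
      intro i
      obtain ⟨p, hp⟩ := surjective_pr ⟨f i, hA (hf i)⟩
      exact ⟨p, congrArg Subtype.val hp⟩
    choose p hp using this
    refine five_false p (fun i j => ?_) (fun i j hij => ?_)
    · rw [hp, hp]; exact h _ (hf i) _ (hf j)
    · rw [hp, hp]; exact hne i j hij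
  obtain ⟨n, hn, hPn, hPn'⟩ : ∃ n ≤ 4, P n ∧ ¬ P (n + 1) := by
    by_contra hcon
    push Not at hcon
    exact P5 (hcon 4 (by norm_num) (hcon 3 (by norm_num) (hcon 2 (by norm_num)
      (hcon 1 (by norm_num) (hcon 0 (by norm_num) P0)))))
  obtain ⟨f, hf, hne⟩ := hPn
  have hsub : A ⊆ Set.range f ∪ Set.range (fun i => -f i) := by
    intro q hq
    by_contra hcon
    rw [Set.mem_union, not_or] at hcon
    obtain ⟨hc1, hc2⟩ := hcon
    apply hPn'
    refine ⟨Fin.snoc f q, fun i => ?_, fun i j hij => ?_⟩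
    · refine Fin.lastCases ?_ (fun i => ?_) i
      · rw [Fin.snoc_last]; exact hq
      · rw [Fin.snoc_castSucc]; exact hf i
    · revert hij
      refine Fin.lastCases ?_ (fun i => ?_) i <;> refine Fin.lastCases ?_ (fun j => ?_) j
      · intro hij; exact absurd rfl hij
      · intro _
        rw [Fin.snoc_last, Fin.snoc_castSucc]
        exact ⟨fun h => hc1 ⟨j, h⟩, fun h => hc2 ⟨j, by show -f j = q; rw [h, neg_neg]⟩⟩
      · intro _
        rw [Fin.snoc_last, Fin.snoc_castSucc]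
        exact ⟨fun h => hc1 ⟨i, h.symm⟩, fun h => hc2 ⟨i, h.symm⟩⟩
      · intro hij
        rw [Fin.snoc_castSucc, Fin.snoc_castSucc]
        exact hne i j (fun h => hij (by rw [h]))
  have hr : ∀ g : Fin n → E, (Set.range g).encard ≤ n := by
    intro g
    rw [← Set.image_univ]
    refine (Set.encard_image_le g _).trans ?_
    rw [Set.encard_univ]
    simp
  calc A.encard ≤ (Set.range f ∪ Set.range (fun i => -f i)).encard := Set.encard_le_encard hsub
    _ ≤ (Set.range f).encard + (Set.range (fun i => -f i)).encard := Set.encard_union_le _ _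
    _ ≤ n + n := add_le_add (hr _) (hr _)
    _ ≤ 4 + 4 := by
        have : (n : ℕ∞) ≤ 4 := by exact_mod_cast hn
        exact add_le_add this this
    _ = 8 := by norm_num

/-- the words of the maximal example -/
def wd : Fin 4 → Fin 3 → Fin 4 := ![![0, 0, 0], ![1, 1, 0], ![1, 0, 1], ![0, 1, 1]]

/-- lifts of the maximal example -/
noncomputable def ex (w : Fin 4 × ZMod 2) : X :=
  (sgS w.2 (basS (wd w.1 0)), basS (wd w.1 1), basS (wd w.1 2))

lemma inner_bas (i j : Fin 4) : ⟪bas i, bas j⟫ = if i = j then 1 else 0 := by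
  unfold bas
  rw [EuclideanSpace.inner_single_left]
  simp

lemma inner_ex (w w' : Fin 4 × ZMod 2) : ⟪(pr (ex w) : E), pr (ex w')⟫ =
    if w.1 = w'.1 then sg w.2 * sg w'.2 else 0 := by
  rw [pr_coe, pr_coe, inner_T]
  show ⟪sg w.2 • bas (wd w.1 0), sg w'.2 • bas (wd w'.1 0)⟫ * ⟪bas (wd w.1 1), bas (wd w'.1 1)⟫ *
    ⟪bas (wd w.1 2), bas (wd w'.1 2)⟫ = _
  rw [real_inner_smul_left, real_inner_smul_right, inner_bas, inner_bas, inner_bas]
  obtain ⟨w, s⟩ := w
  obtain ⟨w', s'⟩ := w'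
  fin_cases w <;> fin_cases w' <;> simp [wd]

lemma ex_inj : Function.Injective (fun w => (pr (ex w) : E)) := by
  intro w w' h
  have h1 : ⟪(pr (ex w) : E), pr (ex w')⟫ = 1 := by
    simp only at h
    rw [← h, real_inner_self_eq_norm_sq, pr_coe, norm_T, norm_sph, norm_sph, norm_sph]; norm_num
  rw [inner_ex] at h1
  split_ifs at h1 with h2
  · refine Prod.ext h2 ?_
    rcases zmod2_cases w.2 with a | a <;> rcases zmod2_cases w'.2 with b | b <;>
      rw [a, b] at h1 ⊢ <;> norm_num at h1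
  · norm_num at h1

lemma par_refl (a : V) : Par a a := Or.inl rfl

lemma par_sg (s s' : ZMod 2) (i : Fin 4) : Par (sgS s (basS i)) (sgS s' (basS i)) := by
  rw [sgS_coe, sgS_coe]
  rcases sg_cases s with h | h <;> rcases sg_cases s' with h' | h' <;> rw [h, h']
  · left; rfl
  · right; simp
  · right; simp
  · left; rfl

lemma ex_anti (w w' : Fin 4 × ZMod 2) : sy (pr (ex w)) (pr (ex w') : E) = pr (ex w') := by
  rw [sy_fix_iff]
  obtain ⟨w, s⟩ := w
  obtain ⟨w', s'⟩ := w'
  have o1 : ∀ i j : Fin 4, i ≠ j → ⟪(basS i : V), basS j⟫ = 0 := by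
    intro i j hij
    have := inner_bas i j
    rwa [if_neg hij] at this
  have o2 : ∀ i j : Fin 4, i ≠ j → ⟪(sgS s (basS i) : V), sgS s' (basS j)⟫ = 0 := by
    intro i j hij
    rw [sgS_coe, sgS_coe, real_inner_smul_left, real_inner_smul_right, o1 i j hij]; simp
  have key : ∀ w w' : Fin 4, (wd w 0 = wd w' 0 ∧ wd w 1 = wd w' 1 ∧ wd w 2 = wd w' 2) ∨
      (wd w 0 ≠ wd w' 0 ∧ wd w 1 ≠ wd w' 1 ∧ wd w 2 = wd w' 2) ∨
      (wd w 0 ≠ wd w' 0 ∧ wd w 1 = wd w' 1 ∧ wd w 2 ≠ wd w' 2) ∨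
      (wd w 0 = wd w' 0 ∧ wd w 1 ≠ wd w' 1 ∧ wd w 2 ≠ wd w' 2) := by decide
  unfold ex
  simp only
  rcases key w w' with ⟨h0, h1, h2⟩ | ⟨h0, h1, h2⟩ | ⟨h0, h1, h2⟩ | ⟨h0, h1, h2⟩
  · rw [h0, h1, h2]; exact Or.inl ⟨par_sg _ _ _, par_refl _, par_refl _⟩
  · rw [h2]; exact Or.inr (Or.inl ⟨o2 _ _ h0, o1 _ _ h1, par_refl _⟩)
  · rw [h1]; exact Or.inr (Or.inr (Or.inl ⟨o2 _ _ h0, par_refl _, o1 _ _ h2⟩))
  · rw [h0]; exact Or.inr (Or.inr (Or.inr ⟨par_sg _ _ _, o1 _ _ h1, o1 _ _ h2⟩))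

theorem isGreatest_eight :
    IsGreatest {k : ℕ∞ | ∃ A : Set E, A ⊆ Seg ∧ Antipodal sy A ∧ A.encard = k} 8 := by
  constructor
  · refine ⟨Set.range fun w => (pr (ex w) : E), ?_, ?_, ?_⟩
    · rintro _ ⟨w, rfl⟩; exact (pr (ex w)).2
    · rintro _ ⟨w, rfl⟩ _ ⟨w', rfl⟩; exact ex_anti w w'
    · rw [← Set.image_univ, ex_inj.encard_image, Set.encard_univ]
      simp
  · rintro k ⟨A, hA, h, rfl⟩
    exact encard_le hA h

end V11202.TN
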