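import Pool.Agent.V11202.TN.Data

/-! Invariance and cocycle property of the functions `f1`, `f2`, `f3`. -/

namespace V11202.TN.Data

lemma vec2 {α : Type} (c : Fin 2 → α) : c = ![c 0, c 1] := by
  funext k; fin_cases k <;> rfl
lemma vec3 {α : Type} (c : Fin 3 → α) : c = ![c 0, c 1, c 2] := by
  funext k; fin_cases k <;> rfl
lemma vec4 {α : Type} (c : Fin 4 → α) : c = ![c 0, c 1, c 2, c 3] := by
  funext k; fin_cases k <;> rfl
lemma vec5 {α : Type} (c : Fin 5 → α) : c = ![c 0, c 1, c 2, c 3, c 4] := by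
  funext k; fin_cases k <;> rfl

lemma d1' : ∀ s, ∀ a0 a1 a2 : Gam,
    ∑ i : Fin 3, f1 s (fun k => (![a0, a1, a2] : Fin 3 → Gam) (i.succAbove k)) = 0 := by
  decide +kernel
lemma d2' : ∀ s, ∀ a0 a1 a2 a3 : Gam,
    ∑ i : Fin 4, f2 s (fun k => (![a0, a1, a2, a3] : Fin 4 → Gam) (i.succAbove k)) = 0 := by
  decide +kernel
lemma d3' : ∀ s, ∀ a0 a1 a2 a3 a4 : Gam,
    ∑ i : Fin 5, f3 s (fun k => (![a0, a1, a2, a3, a4] : Fin 5 → Gam) (i.succAbove k)) = 0 := by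
  decide +kernel

lemma i1' : ∀ s, ∀ g a0 a1 : Gam,
    f1 s (fun k => g + (![a0, a1] : Fin 2 → Gam) k) = f1 s ![a0, a1] := by
  decide +kernel
lemma i2' : ∀ s, ∀ g a0 a1 a2 : Gam,
    f2 s (fun k => g + (![a0, a1, a2] : Fin 3 → Gam) k) = f2 s ![a0, a1, a2] := by
  decide +kernel
lemma i3' : ∀ s, ∀ g a0 a1 a2 a3 : Gam,
    f3 s (fun k => g + (![a0, a1, a2, a3] : Fin 4 → Gam) k) = f3 s ![a0, a1, a2, a3] := by
  decide +kernel

lemma d1 (s : Fin 2) (c : Fin 3 → Gam) : ∑ i : Fin 3, f1 s (fun k => c (i.succAbove k)) = 0 := by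
  rw [vec3 c]; exact d1' s _ _ _
lemma d2 (s : Fin 3) (c : Fin 4 → Gam) : ∑ i : Fin 4, f2 s (fun k => c (i.succAbove k)) = 0 := by
  rw [vec4 c]; exact d2' s _ _ _ _
lemma d3 (s : Fin 4) (c : Fin 5 → Gam) : ∑ i : Fin 5, f3 s (fun k => c (i.succAbove k)) = 0 := by
  rw [vec5 c]; exact d3' s _ _ _ _ _

lemma i1 (s : Fin 2) (g : Gam) (c : Fin 2 → Gam) : f1 s (fun k => g + c k) = f1 s c := by
  rw [vec2 c]; exact i1' s g _ _
lemma i2 (s : Fin 3) (g : Gam) (c : Fin 3 → Gam) : f2 s (fun k => g + c k) = f2 s c := by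
  rw [vec3 c]; exact i2' s g _ _ _
lemma i3 (s : Fin 4) (g : Gam) (c : Fin 4 → Gam) : f3 s (fun k => g + c k) = f3 s c := by
  rw [vec4 c]; exact i3' s g _ _ _ _

end V11202.TN.Data
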