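import Pool.Agent.V11202.TN.Simp
import Pool.Agent.V11202.TN.Data2
import Pool.Agent.V11202.TN.Defs

/-! The lower bound `10` for the total mod 2 Betti number of the Segre manifold. -/

namespace V11202.TN

open CategoryTheory Limits Simplicial AlgebraicTopology

/-- The cochain of a function of labels. -/
noncomputable def cc {n : ℕ} (f : (Fin (n + 1) → Gam) → ZMod 2) :
    (CC (SS Seg)).X n ⟶ F2 := coch fun x => cval f (sx Seg n x)

lemma cc_cocycle {n : ℕ} {f : (Fin (n + 1) → Gam) → ZMod 2} (hf : Inv f)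
    (hd : ∀ c, dlt f c = 0) :
    (CC (SS Seg)).d ((ComplexShape.down ℕ).prev n) n ≫ cc f = 0 := by
  have : (ComplexShape.down ℕ).prev n = n + 1 := (ComplexShape.down ℕ).prev_eq' rfl
  rw [this]
  refine d_coch _ fun x => ?_
  simp only [sx_δ]
  exact sum_cval_face hf hd _

/-- The simplices as elements of the singular set. -/
noncomputable def sgx {n : ℕ} {l : Fin (n + 1) → Fin 4} (hl : Function.Injective l)
    (c : Fin (n + 1) → Gam) : (SS Seg) _⦋n⦌ := (sx Seg n).symm (sig hl c)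

lemma sgx_δ {n : ℕ} {l : Fin (n + 2) → Fin 4} (hl : Function.Injective l)
    (c : Fin (n + 2) → Gam) (i : Fin (n + 2)) :
    (SS Seg).δ i (sgx hl c) = sgx (l := fun k => l (i.succAbove k))
      (fun _ _ h => Fin.succAbove_right_injective (hl h)) (fun k => c (i.succAbove k)) := by
  unfold sgx
  rw [Equiv.eq_symm_apply, sx_δ, Equiv.apply_symm_apply, sig_face]

lemma sgx_add {n : ℕ} {l : Fin (n + 1) → Fin 4} (hl : Function.Injective l)
    (c c' : Fin (n + 1) → Gam) (h : ∃ g : Gam, ∀ k, c k = g + c' k) : sgx hl c = sgx hl c' := by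
  obtain ⟨g, hg⟩ := h
  have : c = fun k => g + c' k := funext hg
  rw [this]
  unfold sgx
  rw [sig_add]

lemma ch_cycle {n : ℕ} {ι κ : Type} [Fintype ι] [Fintype κ] [DecidableEq κ]
    {l : Fin (n + 2) → Fin 4} (hl : Function.Injective l) (c : ι → Fin (n + 2) → Gam)
    (c' : κ → Fin (n + 1) → Gam) (p : Fin (n + 2) → ι → κ)
    (hp : ∀ i j, ∃ g : Gam, ∀ k, c j (i.succAbove k) = g + c' (p i j) k) (a : ι → ZMod 2)
    (ha : ∀ i k, (∑ j, if p i j = k then a j else 0) = 0) :
    ch a (fun j => sgx hl (c j)) ≫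
      (CC (SS Seg)).d (n + 1) ((ComplexShape.down ℕ).next (n + 1)) = 0 := by
  have : (ComplexShape.down ℕ).next (n + 1) = n := (ComplexShape.down ℕ).next_eq' rfl
  rw [this]
  refine ch_d _ _ fun i => ?_
  have h1 : ∀ j, (SS Seg).δ i (sgx hl (c j)) = sgx (l := fun k => l (i.succAbove k))
      (fun _ _ h => Fin.succAbove_right_injective (hl h)) (c' (p i j)) := by
    intro j
    rw [sgx_δ]
    exact sgx_add _ _ _ (hp i j)
  simp only [h1]
  exact sum_fiber_zero a (p i) (fun k => (SS Seg).ιChainComplex (sgx (l := fun k => l (i.succAbove k))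
      (fun _ _ h => Fin.succAbove_right_injective (hl h)) (c' k))) (ha i)

lemma ch_cc {n : ℕ} {ι : Type} [Fintype ι] {l : Fin (n + 1) → Fin 4} (hl : Function.Injective l)
    (c : ι → Fin (n + 1) → Gam) (a : ι → ZMod 2) {f : (Fin (n + 1) → Gam) → ZMod 2}
    (hf : Inv f) : ch a (fun j => sgx hl (c j)) ≫ cc f = (∑ j, a j * f (c j)) • 𝟙 F2 := by
  unfold cc
  rw [ch_coch]
  congr 1
  refine Finset.sum_congr rfl fun j _ => ?_
  unfold sgx
  rw [Equiv.apply_symm_apply, cval_sig hl _ hf]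

lemma castLE_inj {n : ℕ} (h : n ≤ 4) : Function.Injective (Fin.castLE h) :=
  Fin.castLE_injective h

/-- generic lower bound in positive degrees -/
theorem rank_ge {n k : ℕ} (hn : n + 2 ≤ 4) {ι κ : Type} [Fintype ι] [Fintype κ] [DecidableEq κ]
    (c : ι → Fin (n + 2) → Gam) (c' : κ → Fin (n + 1) → Gam) (p : Fin (n + 2) → ι → κ)
    (hp : ∀ i j, ∃ g : Gam, ∀ k, c j (i.succAbove k) = g + c' (p i j) k)
    (z : Fin k → ι → ZMod 2) (hz : ∀ s i k, (∑ j, if p i j = k then z s j else 0) = 0)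
    (f : Fin k → (Fin (n + 2) → Gam) → ZMod 2) (hf : ∀ s, Inv (n := n + 1) (f s))
    (hd : ∀ s c, dlt (n := n + 1) (f s) c = 0)
    (hr : ∀ s t, ∑ j, z s j * f t (c j) = if s = t then 1 else 0) :
    (k : Cardinal) ≤ Module.rank (ZMod 2) ((CC (SS Seg)).homology (n + 1)) :=
  rank_homology_ge (S := SS Seg) (n + 1) k
    (fun s => ch (z s) (fun j => sgx (n := n + 1) (castLE_inj hn) (c j)))
    (fun s => cc (n := n + 1) (f s))
    (fun s => ch_cycle (castLE_inj hn) c c' p hp (z s) (hz s))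
    (fun s => cc_cocycle (n := n + 1) (hf s) (hd s))
    (fun s t => by
      rw [ch_cc (n := n + 1) (castLE_inj hn) c (z s) (hf t), hr])

theorem rank0' : ((1 : ℕ) : Cardinal) ≤ Module.rank (ZMod 2) ((CC (SS Seg)).homology 0) :=
  rank_homology_ge (S := SS Seg) 0 1
    (fun _ => ch (fun _ : Unit => (1 : ZMod 2))
      (fun _ => sgx (n := 0) (castLE_inj (by norm_num)) ![0]))
    (fun _ => cc (n := 0) fun _ => 1)
    (fun _ => by
      have : ¬ (ComplexShape.down ℕ).Rel 0 ((ComplexShape.down ℕ).next 0) := by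
        simp
      rw [HomologicalComplex.shape _ _ _ this, comp_zero])
    (fun _ => cc_cocycle (n := 0) (fun _ _ => rfl) (fun c => by unfold dlt; simp; decide))
    (fun i j => by
      rw [ch_cc (n := 0) _ (fun _ => ![0]) _ (fun _ _ => rfl), if_pos (Subsingleton.elim i j)]
      simp)

theorem rank1' : ((2 : ℕ) : Cardinal) ≤ Module.rank (ZMod 2) ((CC (SS Seg)).homology 1) :=
  rank_ge (n := 0) (k := 2) (by norm_num) Data.c1 Data.c0 Data.p1 Data.q1 Data.z1 Data.h1
    Data.f1 Data.i1 Data.d1 Data.r1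

theorem rank2' : ((3 : ℕ) : Cardinal) ≤ Module.rank (ZMod 2) ((CC (SS Seg)).homology 2) :=
  rank_ge (n := 1) (k := 3) (by norm_num) Data.c2 Data.c1 Data.p2 Data.q2 Data.z2 Data.h2
    Data.f2 Data.i2 Data.d2 Data.r2

theorem rank3' : ((4 : ℕ) : Cardinal) ≤ Module.rank (ZMod 2) ((CC (SS Seg)).homology 3) :=
  rank_ge (n := 2) (k := 4) (by norm_num) Data.c3 Data.c2 Data.p3 Data.q3 Data.z3 Data.h3
    Data.f3 Data.i3 Data.d3 Data.r3

theorem ten_le : (10 : Cardinal) ≤ totalBetti Seg := by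
  unfold totalBetti
  rw [Cardinal.sum_nat_eq_add_sum_succ, Cardinal.sum_nat_eq_add_sum_succ,
    Cardinal.sum_nat_eq_add_sum_succ, Cardinal.sum_nat_eq_add_sum_succ]
  have h : ((1 : ℕ) : Cardinal.{0}) + (((2 : ℕ) : Cardinal.{0}) + (((3 : ℕ) : Cardinal.{0}) +
      (((4 : ℕ) : Cardinal.{0}) + 0))) = 10 := by norm_num
  rw [← h]
  exact add_le_add rank0' (add_le_add rank1' (add_le_add rank2' (add_le_add rank3' zero_le)))

end V11202.TN
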