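import Mathlib

/-! Pairing cocycles with cycles in the chain complex of a simplicial set mod 2. -/

namespace V11202.TN

open CategoryTheory Limits Simplicial AlgebraicTopology

/-- Coefficients. -/
abbrev F2 : ModuleCat.{0} (ZMod 2) := ModuleCat.of (ZMod 2) (ZMod 2)

variable (S : SSet.{0})

/-- The chain complex of a simplicial set mod 2. -/
noncomputable abbrev CC : ChainComplex (ModuleCat.{0} (ZMod 2)) ℕ := S.chainComplex F2

variable {S}

/-- The cochain with given values on simplices. -/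
noncomputable def coch {n : ℕ} (f : S _⦋n⦌ → ZMod 2) : (CC S).X n ⟶ F2 :=
  (S.isColimitChainComplexXCofan F2 n).desc (Cofan.mk _ fun x => f x • 𝟙 F2)

lemma ι_coch {n : ℕ} (f : S _⦋n⦌ → ZMod 2) (x : S _⦋n⦌) :
    S.ιChainComplex x ≫ coch f = f x • 𝟙 F2 :=
  (S.isColimitChainComplexXCofan F2 n).fac (Cofan.mk _ fun x => f x • 𝟙 F2) ⟨x⟩

lemma neg_one_pow_smul {A B : ModuleCat.{0} (ZMod 2)} (k : ℕ) (f : A ⟶ B) :
    ((-1 : ℤ) ^ k • f : A ⟶ B) = f := by
  have h2 : (2 : ℤ) • f = 0 := by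
    rw [two_zsmul]
    have : ((1 : ZMod 2) + 1) • f = 0 := by
      have h : (1 + 1 : ZMod 2) = 0 := by decide
      rw [h, zero_smul]
    rwa [add_smul, one_smul] at this
  rcases neg_one_pow_eq_or ℤ k with h | h
  · rw [h, one_smul]
  · rw [h, neg_smul, one_smul, neg_eq_iff_add_eq_zero, ← two_zsmul, h2]

lemma d_coch {n : ℕ} (f : S _⦋n⦌ → ZMod 2)
    (hf : ∀ x : S _⦋n + 1⦌, ∑ i : Fin (n + 2), f (S.δ i x) = 0) :
    (CC S).d (n + 1) n ≫ coch f = 0 := by
  refine SSet.chainComplex_hom_ext fun x => ?_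
  rw [← Category.assoc, SSet.ιChainComplex_d, Preadditive.sum_comp, comp_zero]
  simp only [neg_one_pow_smul, ι_coch]
  rw [← Finset.sum_smul, hf, zero_smul]

/-- A chain given by a formal sum of simplices. -/
noncomputable def ch {n : ℕ} {ι : Type} [Fintype ι] (a : ι → ZMod 2) (x : ι → S _⦋n⦌) :
    F2 ⟶ (CC S).X n := ∑ j, a j • S.ιChainComplex (x j)

lemma ch_coch {n : ℕ} {ι : Type} [Fintype ι] (a : ι → ZMod 2) (x : ι → S _⦋n⦌)
    (f : S _⦋n⦌ → ZMod 2) : ch a x ≫ coch f = (∑ j, a j * f (x j)) • 𝟙 F2 := by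
  unfold ch
  rw [Preadditive.sum_comp, Finset.sum_smul]
  refine Finset.sum_congr rfl fun j _ => ?_
  rw [Linear.smul_comp, ι_coch, smul_smul]

lemma ch_d {n : ℕ} {ι : Type} [Fintype ι] (a : ι → ZMod 2) (x : ι → S _⦋n + 1⦌)
    (h : ∀ i : Fin (n + 2), ∑ j, a j • (S.ιChainComplex (S.δ i (x j)) : F2 ⟶ _) = 0) :
    ch a x ≫ (CC S).d (n + 1) n = 0 := by
  unfold ch
  rw [Preadditive.sum_comp]
  simp only [Linear.smul_comp, SSet.ιChainComplex_d, neg_one_pow_smul, Finset.smul_sum]
  rw [Finset.sum_comm]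
  exact Finset.sum_eq_zero fun i _ => h i

/-- regrouping a sum over fibres. -/
lemma sum_fiber_zero {A B : ModuleCat.{0} (ZMod 2)} {ι κ : Type} [Fintype ι] [Fintype κ]
    [DecidableEq κ] (a : ι → ZMod 2) (p : ι → κ) (G : κ → (A ⟶ B))
    (h : ∀ k, (∑ j, if p j = k then a j else 0) = 0) : ∑ j, a j • G (p j) = 0 := by
  have : ∀ j, a j • G (p j) = ∑ k, (if p j = k then a j else 0) • G k := by
    intro j
    rw [Finset.sum_eq_single (p j)]
    · simp
    · intro k _ hk
      rw [if_neg (Ne.symm hk), zero_smul]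
    · intro h; exact absurd (Finset.mem_univ _) h
  simp only [this]
  rw [Finset.sum_comm]
  refine Finset.sum_eq_zero fun k _ => ?_
  rw [← Finset.sum_smul, h, zero_smul]

/-- Lower bound for the rank of homology from a dual pair of cycles and cocycles. -/
lemma rank_homology_ge (n k : ℕ) (z : Fin k → (F2 ⟶ (CC S).X n)) (φ : Fin k → ((CC S).X n ⟶ F2))
    (hz : ∀ i, z i ≫ (CC S).d n ((ComplexShape.down ℕ).next n) = 0)
    (hφ : ∀ i, (CC S).d ((ComplexShape.down ℕ).prev n) n ≫ φ i = 0)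
    (hp : ∀ i j, z i ≫ φ j = (if i = j then (1 : ZMod 2) else 0) • 𝟙 F2) :
    (k : Cardinal) ≤ Module.rank (ZMod 2) ((CC S).homology n) := by
  classical
  let zc : Fin k → (F2 ⟶ (CC S).homology n) := fun i =>
    (CC S).liftCycles (z i) _ rfl (hz i) ≫ (CC S).homologyπ n
  let φc : Fin k → ((CC S).homology n ⟶ F2) := fun i =>
    (CC S).homologyι n ≫ (CC S).descOpcycles (φ i) _ rfl (hφ i)
  have hpair : ∀ i j, zc i ≫ φc j = (if i = j then (1 : ZMod 2) else 0) • 𝟙 F2 := by
    intro i j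
    rw [← hp i j]
    simp only [zc, φc, Category.assoc, HomologicalComplex.homology_π_ι_assoc,
      HomologicalComplex.p_descOpcycles, HomologicalComplex.liftCycles_i_assoc]
  let v : Fin k → (CC S).homology n := fun i => (zc i).hom (1 : ZMod 2)
  let Φ : (CC S).homology n →ₗ[ZMod 2] (Fin k → ZMod 2) :=
    LinearMap.pi fun j => (φc j).hom
  have hΦ : ∀ i, Φ (v i) = Pi.single i 1 := by
    intro i
    funext j
    have := congrArg (fun g : F2 ⟶ F2 => g.hom (1 : ZMod 2)) (hpair i j)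
    simp only [ModuleCat.hom_comp, LinearMap.comp_apply, ModuleCat.hom_smul,
      LinearMap.smul_apply, ModuleCat.hom_id, LinearMap.id_apply] at this
    show (φc j).hom ((zc i).hom 1) = _
    rw [this]
    by_cases hij : i = j
    · subst hij; simp
    · rw [if_neg hij, Pi.single_apply, if_neg (Ne.symm hij)]; simp
  have hli : LinearIndependent (ZMod 2) v := by
    refine LinearIndependent.of_comp Φ ?_
    have : Φ ∘ v = fun i => Pi.single i (1 : ZMod 2) := funext hΦ
    rw [this]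
    exact Pi.linearIndependent_single_one (Fin k) (ZMod 2)
  have := hli.cardinal_le_rank
  simpa using this

end V11202.TN
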