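import Pool.Agent.V11202.TN.Seg

/-! The covering `S³ × S³ × S³ → Seg`. -/

namespace V11202.TN

open scoped RealInnerProductSpace Topology
open Topology

/-- The sign of an element of `ZMod 2`. -/
noncomputable def sg (a : ZMod 2) : ℝ := if a = 0 then 1 else -1

@[simp] lemma sg_zero : sg 0 = 1 := rfl
@[simp] lemma sg_one : sg 1 = -1 := by simp [sg]

lemma zmod2_cases (a : ZMod 2) : a = 0 ∨ a = 1 := by
  revert a; decide

lemma sg_add (a b : ZMod 2) : sg (a + b) = sg a * sg b := by
  rcases zmod2_cases a with rfl | rfl <;> rcases zmod2_cases b with rfl | rfl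
  · simp
  · simp
  · simp
  · have : (1 + 1 : ZMod 2) = 0 := by decide
    rw [this]; simp

lemma sg_cases (a : ZMod 2) : sg a = 1 ∨ sg a = -1 := by
  rcases zmod2_cases a with rfl | rfl <;> simp

lemma abs_sg (a : ZMod 2) : |sg a| = 1 := by
  rcases sg_cases a with h | h <;> rw [h] <;> norm_num

lemma norm_sg_smul (a : ZMod 2) (x : V) : ‖sg a • x‖ = ‖x‖ := by
  rw [norm_smul, Real.norm_eq_abs, abs_sg, one_mul]

/-- The unit sphere. -/
abbrev Sph := Metric.sphere (0 : V) 1

/-- The product of three 3-spheres. -/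
abbrev X := Sph × Sph × Sph

/-- The deck group. -/
abbrev Gam := ZMod 2 × ZMod 2

lemma norm_sph (x : Sph) : ‖(x : V)‖ = 1 := by
  have := x.2
  rwa [mem_sphere_zero_iff_norm] at this

/-- Signed copy of a point of the sphere. -/
noncomputable def sgS (a : ZMod 2) (x : Sph) : Sph :=
  ⟨sg a • (x : V), by rw [mem_sphere_zero_iff_norm, norm_sg_smul, norm_sph]⟩

@[simp] lemma sgS_coe (a : ZMod 2) (x : Sph) : (sgS a x : V) = sg a • (x : V) := rfl

lemma continuous_sgS (a : ZMod 2) : Continuous (sgS a) := by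
  unfold sgS
  fun_prop

noncomputable instance : AddAction Gam X where
  vadd g p := (sgS g.1 p.1, sgS g.2 p.2.1, sgS (g.1 + g.2) p.2.2)
  zero_vadd p := by
    show (sgS (0 : Gam).1 p.1, sgS (0 : Gam).2 p.2.1, sgS ((0 : Gam).1 + (0 : Gam).2) p.2.2) = p
    refine Prod.ext ?_ (Prod.ext ?_ ?_) <;> apply Subtype.ext <;> simp
  add_vadd g h p := by
    show (sgS (g + h).1 p.1, sgS (g + h).2 p.2.1, sgS ((g + h).1 + (g + h).2) p.2.2) =
      (sgS g.1 (sgS h.1 p.1), sgS g.2 (sgS h.2 p.2.1),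
        sgS (g.1 + g.2) (sgS (h.1 + h.2) p.2.2))
    refine Prod.ext ?_ (Prod.ext ?_ ?_) <;> apply Subtype.ext <;>
      simp only [sgS_coe, smul_smul, ← sg_add, Prod.fst_add, Prod.snd_add]
    congr 2
    ring

lemma vadd_def (g : Gam) (p : X) :
    g +ᵥ p = (sgS g.1 p.1, sgS g.2 p.2.1, sgS (g.1 + g.2) p.2.2) := rfl

instance : ContinuousConstVAdd Gam X where
  continuous_const_vadd g := by
    show Continuous fun p : X => (sgS g.1 p.1, sgS g.2 p.2.1, sgS (g.1 + g.2) p.2.2)
    have h1 := continuous_sgS g.1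
    have h2 := continuous_sgS g.2
    have h3 := continuous_sgS (g.1 + g.2)
    exact (h1.comp continuous_fst).prodMk ((h2.comp (continuous_fst.comp continuous_snd)).prodMk
      (h3.comp (continuous_snd.comp continuous_snd)))

/-- The projection. -/
noncomputable def pr (p : X) : Seg :=
  ⟨T p.1 p.2.1 p.2.2, p.1, p.2.1, p.2.2, norm_sph _, norm_sph _, norm_sph _, rfl⟩

@[simp] lemma pr_coe (p : X) : (pr p : E) = T p.1 p.2.1 p.2.2 := rfl

lemma continuous_pr : Continuous pr := by
  refine Continuous.subtype_mk ?_ _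
  exact continuous_T.comp ((continuous_subtype_val.comp continuous_fst).prodMk
    ((continuous_subtype_val.comp (continuous_fst.comp continuous_snd)).prodMk
      (continuous_subtype_val.comp (continuous_snd.comp continuous_snd))))

lemma surjective_pr : Function.Surjective pr := by
  rintro ⟨p, x, y, z, hx, hy, hz, h⟩
  refine ⟨(⟨x, by simpa using hx⟩, ⟨y, by simpa using hy⟩, ⟨z, by simpa using hz⟩), ?_⟩
  exact Subtype.ext h

lemma pr_eq_iff (p q : X) : pr p = pr q ↔ ∃ g : Gam, q = g +ᵥ p := by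
  rw [Subtype.ext_iff, pr_coe, pr_coe, T_eq_iff (norm_sph _) (norm_sph _) (norm_sph _)
    (norm_sph _) (norm_sph _) (norm_sph _)]
  have h2 : (1 + 1 : ZMod 2) = 0 := by decide
  constructor
  · rintro (⟨h1, h2, h3⟩ | ⟨h1, h2, h3⟩ | ⟨h1, h2, h3⟩ | ⟨h1, h2, h3⟩)
    · refine ⟨(0, 0), ?_⟩
      refine Prod.ext ?_ (Prod.ext ?_ ?_) <;> apply Subtype.ext <;> simp [vadd_def, h1, h2, h3]
    · refine ⟨(1, 1), ?_⟩
      refine Prod.ext ?_ (Prod.ext ?_ ?_) <;> apply Subtype.ext <;>
        simp [vadd_def, *]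
    · refine ⟨(1, 0), ?_⟩
      refine Prod.ext ?_ (Prod.ext ?_ ?_) <;> apply Subtype.ext <;> simp [vadd_def, h1, h2, h3]
    · refine ⟨(0, 1), ?_⟩
      refine Prod.ext ?_ (Prod.ext ?_ ?_) <;> apply Subtype.ext <;> simp [vadd_def, h1, h2, h3]
  · rintro ⟨⟨a, b⟩, rfl⟩
    rcases zmod2_cases a with rfl | rfl <;> rcases zmod2_cases b with rfl | rfl <;>
      simp [vadd_def, h2]

lemma orbit_iff {p q : X} : pr p = pr q ↔ p ∈ AddAction.orbit Gam q := by
  rw [eq_comm, pr_eq_iff, AddAction.mem_orbit_iff]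
  constructor
  · rintro ⟨g, h⟩; exact ⟨g, h.symm⟩
  · rintro ⟨g, h⟩; exact ⟨g, h.symm⟩

instance : CompactSpace Sph := inferInstance

lemma isQuotientMap_pr : IsQuotientMap pr :=
  (continuous_pr.isClosedMap).isQuotientMap continuous_pr surjective_pr

lemma isQuotientCoveringMap_pr : IsAddQuotientCoveringMap pr Gam where
  __ := isQuotientMap_pr
  apply_eq_iff_mem_orbit := orbit_iff
  disjoint e := by
    refine ⟨{q : X | 0 < ⟪(e.1 : V), (q.1 : V)⟫ ∧ 0 < ⟪(e.2.1 : V), (q.2.1 : V)⟫}, ?_, ?_⟩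
    · have c1 : Continuous fun q : X => ⟪(e.1 : V), (q.1 : V)⟫ :=
        continuous_const.inner (continuous_subtype_val.comp continuous_fst)
      have c2 : Continuous fun q : X => ⟪(e.2.1 : V), (q.2.1 : V)⟫ :=
        continuous_const.inner (continuous_subtype_val.comp (continuous_fst.comp continuous_snd))
      refine IsOpen.mem_nhds ?_ ?_
      · exact (isOpen_lt continuous_const c1).inter (isOpen_lt continuous_const c2)
      · constructor
        · rw [real_inner_self_eq_norm_sq, norm_sph]; norm_num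
        · rw [real_inner_self_eq_norm_sq, norm_sph]; norm_num
    · rintro ⟨a, b⟩ ⟨q, ⟨q', ⟨h1, h2⟩, rfl⟩, ⟨h3, h4⟩⟩
      simp only [vadd_def, sgS_coe, real_inner_smul_right] at h3 h4
      have ha : a = 0 := by
        rcases zmod2_cases a with rfl | rfl
        · rfl
        · rw [sg_one] at h3; linarith
      have hb : b = 0 := by
        rcases zmod2_cases b with rfl | rfl
        · rfl
        · rw [sg_one] at h4; linarith
      rw [ha, hb]; rfl

lemma isCoveringMap_pr : IsCoveringMap pr := isQuotientCoveringMap_pr.isCoveringMap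

end V11202.TN
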