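import Mathlib

/-! Finite data: cocycles and cycles for the group `(ℤ/2)²` in degrees `1, 2, 3`. -/

namespace V11202.TN.Data

abbrev Gam := ZMod 2 × ZMod 2

/-- product of `x`'s and `y`'s -/
def f1 : Fin 2 → (Fin 2 → Gam) → ZMod 2
  | 0, c => (c 0).1 + (c 1).1
  | 1, c => (c 0).2 + (c 1).2

def f2 : Fin 3 → (Fin 3 → Gam) → ZMod 2
  | 0, c => ((c 0).1 + (c 1).1) * ((c 1).1 + (c 2).1)
  | 1, c => ((c 0).1 + (c 1).1) * ((c 1).2 + (c 2).2)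
  | 2, c => ((c 0).2 + (c 1).2) * ((c 1).2 + (c 2).2)

def f3 : Fin 4 → (Fin 4 → Gam) → ZMod 2
  | 0, c => ((c 0).1 + (c 1).1) * ((c 1).1 + (c 2).1) * ((c 2).1 + (c 3).1)
  | 1, c => ((c 0).1 + (c 1).1) * ((c 1).1 + (c 2).1) * ((c 2).2 + (c 3).2)
  | 2, c => ((c 0).1 + (c 1).1) * ((c 1).2 + (c 2).2) * ((c 2).2 + (c 3).2)
  | 3, c => ((c 0).2 + (c 1).2) * ((c 1).2 + (c 2).2) * ((c 2).2 + (c 3).2)

def c1 (g : Gam) : Fin 2 → Gam := ![0, g]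
def c2 (g : Gam × Gam) : Fin 3 → Gam := ![0, g.1, g.2]
def c3 (g : Gam × Gam × Gam) : Fin 4 → Gam := ![0, g.1, g.2.1, g.2.2]

def p1 : Fin 2 → Gam → Unit := fun _ _ => ()
def c0 (_ : Unit) : Fin 1 → Gam := ![0]

def p2 : Fin 3 → Gam × Gam → Gam
  | 0, g => g.1 + g.2
  | 1, g => g.2
  | 2, g => g.1

def p3 : Fin 4 → Gam × Gam × Gam → Gam × Gam
  | 0, g => (g.1 + g.2.1, g.1 + g.2.2)
  | 1, g => (g.2.1, g.2.2)
  | 2, g => (g.1, g.2.2)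
  | 3, g => (g.1, g.2.1)

def z1 : Fin 2 → Gam → ZMod 2
  | 0, g => if g ∈ ([(0, 0), (1, 0)] : List Gam) then 1 else 0
  | 1, g => if g ∈ ([(0, 0), (0, 1)] : List Gam) then 1 else 0

def z2 : Fin 3 → Gam × Gam → ZMod 2
  | 0, g => if g ∈ ([((0, 0), (0, 0)), ((0, 0), (1, 0)), ((1, 0), (0, 0)), ((1, 0), (1, 0))] :
      List (Gam × Gam)) then 1 else 0
  | 1, g => if g ∈ ([((0, 0), (1, 0)), ((0, 0), (1, 1)), ((1, 0), (0, 0)), ((1, 0), (1, 1)),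
      ((1, 1), (0, 0)), ((1, 1), (1, 0))] : List (Gam × Gam)) then 1 else 0
  | 2, g => if g ∈ ([((0, 0), (0, 0)), ((0, 0), (0, 1)), ((0, 1), (0, 0)), ((0, 1), (0, 1))] :
      List (Gam × Gam)) then 1 else 0

def z3 : Fin 4 → Gam × Gam × Gam → ZMod 2
  | 0, g => if g ∈ ([((0, 0), (0, 0), (0, 0)), ((0, 0), (0, 0), (1, 0)), ((0, 0), (1, 0), (0, 0)), ((0, 0), (1, 0), (1, 0)), ((1, 0), (0, 0), (0, 0)), ((1, 0), (0, 0), (1, 0)), ((1, 0), (1, 0), (0, 0)), ((1, 0), (1, 0), (1, 0))] : List (Gam × Gam × Gam)) then 1 else 0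
  | 1, g => if g ∈ ([((0, 0), (0, 0), (0, 0)), ((0, 0), (0, 0), (1, 0)), ((0, 0), (0, 1), (1, 0)), ((0, 0), (0, 1), (0, 1)), ((0, 0), (1, 1), (0, 0)), ((0, 0), (1, 1), (0, 1)), ((1, 0), (0, 0), (0, 0)), ((1, 0), (0, 0), (1, 0)), ((1, 0), (0, 1), (1, 0)), ((1, 0), (0, 1), (1, 1)), ((1, 0), (1, 1), (0, 0)), ((1, 0), (1, 1), (1, 1)), ((1, 1), (0, 1), (0, 1)), ((1, 1), (0, 1), (1, 1)), ((1, 1), (1, 1), (0, 1)), ((1, 1), (1, 1), (1, 1))] : List (Gam × Gam × Gam)) then 1 else 0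
  | 2, g => if g ∈ ([((0, 0), (0, 0), (1, 0)), ((0, 0), (0, 0), (1, 1)), ((0, 0), (1, 0), (0, 0)), ((0, 0), (1, 0), (1, 1)), ((0, 0), (1, 1), (0, 0)), ((0, 0), (1, 1), (1, 0)), ((0, 1), (1, 0), (0, 0)), ((0, 1), (1, 0), (1, 1)), ((0, 1), (0, 1), (1, 0)), ((0, 1), (0, 1), (1, 1)), ((0, 1), (1, 1), (0, 0)), ((0, 1), (1, 1), (1, 0)), ((1, 1), (0, 0), (1, 0)), ((1, 1), (0, 0), (1, 1)), ((1, 1), (0, 1), (1, 0)), ((1, 1), (0, 1), (1, 1))] : List (Gam × Gam × Gam)) then 1 else 0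
  | 3, g => if g ∈ ([((0, 0), (1, 0), (1, 0)), ((0, 0), (1, 0), (1, 1)), ((0, 0), (1, 1), (1, 0)), ((0, 0), (1, 1), (1, 1)), ((0, 1), (1, 0), (1, 0)), ((0, 1), (1, 0), (1, 1)), ((0, 1), (1, 1), (1, 0)), ((0, 1), (1, 1), (1, 1))] : List (Gam × Gam × Gam)) then 1 else 0

lemma h1 : ∀ s, ∀ i k, (∑ j, if p1 i j = k then z1 s j else 0) = 0 := by decide +kernel
lemma h2 : ∀ s, ∀ i k, (∑ j, if p2 i j = k then z2 s j else 0) = 0 := by decide +kernel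
lemma h3 : ∀ s, ∀ i k, (∑ j, if p3 i j = k then z3 s j else 0) = 0 := by decide +kernel

lemma q1 : ∀ i j, ∃ g : Gam, ∀ k, c1 j (i.succAbove k) = g + c0 (p1 i j) k := by decide +kernel
lemma q2 : ∀ i j, ∃ g : Gam, ∀ k, c2 j (i.succAbove k) = g + c1 (p2 i j) k := by decide +kernel
lemma q3 : ∀ i j, ∃ g : Gam, ∀ k, c3 j (i.succAbove k) = g + c2 (p3 i j) k := by decide +kernel

lemma r1 : ∀ s t, (∑ j, z1 s j * f1 t (c1 j)) = if s = t then 1 else 0 := by decide +kernel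
lemma r2 : ∀ s t, (∑ j, z2 s j * f2 t (c2 j)) = if s = t then 1 else 0 := by decide +kernel
lemma r3 : ∀ s t, (∑ j, z3 s j * f3 t (c3 j)) = if s = t then 1 else 0 := by decide +kernel

end V11202.TN.Data
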