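import Pool.Agent.V11202.TN.Chain

/-! Singular simplices as continuous maps, and faces. -/

namespace V11202.TN

open CategoryTheory Limits Simplicial AlgebraicTopology Opposite

variable (M : Type) [TopologicalSpace M]

/-- The singular simplicial set. -/
noncomputable abbrev SS : SSet.{0} := TopCat.toSSet.obj (TopCat.of M)

/-- The standard simplex. -/
abbrev Del (n : ℕ) := stdSimplex ℝ (Fin (n + 1))

/-- The face inclusion. -/
noncomputable def face {n : ℕ} (i : Fin (n + 2)) : C(Del n, Del (n + 1)) :=
  ⟨stdSimplex.map (Fin.succAbove i), stdSimplex.continuous_map _⟩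

/-- simplices as continuous maps. -/
noncomputable def sx (n : ℕ) : (SS M) _⦋n⦌ ≃ C(Del n, M) :=
  TopCat.toSSetObjEquiv (TopCat.of M) (op ⦋n⦌)

lemma sx_δ {n : ℕ} (i : Fin (n + 2)) (x : (SS M) _⦋n + 1⦌) :
    sx M n ((SS M).δ i x) = (sx M (n + 1) x).comp (face i) := by
  ext t
  rfl

end V11202.TN
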