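import Pool.Agent.V11202.TN.Cov
import Pool.Agent.V11202.TN.Sing

/-! Lifting singular simplices and vertex labels. -/

namespace V11202.TN

open scoped unitInterval

/-- The contraction of the simplex to a vertex. -/
noncomputable def contr (n : ℕ) : C(I × Del n, Del n) where
  toFun p := ⟨(1 - (p.1 : ℝ)) • (stdSimplex.vertex (S := ℝ) (0 : Fin (n + 1))).1 + (p.1 : ℝ) • p.2.1,
    convex_stdSimplex ℝ (Fin (n + 1)) (stdSimplex.vertex (S := ℝ) (0 : Fin (n + 1))).2 p.2.2
      (by have := p.1.2.2; linarith) p.1.2.1 (by ring)⟩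
  continuous_toFun := by
    refine Continuous.subtype_mk ?_ _
    fun_prop

lemma contr_zero (n : ℕ) (a : Del n) :
    contr n (0, a) = stdSimplex.vertex (S := ℝ) (0 : Fin (n + 1)) := by
  apply Subtype.ext
  simp [contr]

lemma contr_one (n : ℕ) (a : Del n) : contr n (1, a) = a := by
  apply Subtype.ext
  simp [contr]

lemma exists_lift {n : ℕ} (ρ : C(Del n, Seg)) : ∃ τ : C(Del n, X), ∀ t, pr (τ t) = ρ t := by
  obtain ⟨e, he⟩ := surjective_pr (ρ (stdSimplex.vertex (S := ℝ) (0 : Fin (n + 1))))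
  let H : C(I × Del n, Seg) := ρ.comp (contr n)
  let f : C(Del n, X) := ContinuousMap.const _ e
  have H0 : ∀ a, H (0, a) = pr (f a) := by
    intro a
    show ρ (contr n (0, a)) = pr e
    rw [contr_zero, he]
  let L := isCoveringMap_pr.liftHomotopy H f H0
  refine ⟨L.comp ⟨fun a => (1, a), by fun_prop⟩, fun t => ?_⟩
  have := congrFun (isCoveringMap_pr.liftHomotopy_lifts H f H0) (1, t)
  calc pr (L (1, t)) = H (1, t) := this
    _ = ρ (contr n (1, t)) := rfl
    _ = ρ t := by rw [contr_one]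

instance (n : ℕ) : PreconnectedSpace (Del n) := inferInstance

lemma lift_unique {n : ℕ} (τ τ' : C(Del n, X)) (h : ∀ t, pr (τ t) = pr (τ' t)) :
    ∃ g : Gam, ∀ t, τ' t = g +ᵥ τ t := by
  obtain ⟨g, hg⟩ := (pr_eq_iff _ _).1 (h (stdSimplex.vertex (S := ℝ) (0 : Fin (n + 1))))
  refine ⟨g, fun t => ?_⟩
  have hpr : ∀ p : X, pr (g +ᵥ p) = pr p := fun p => ((pr_eq_iff p (g +ᵥ p)).2 ⟨g, rfl⟩).symm
  have := isCoveringMap_pr.eq_of_comp_eq (A := Del n) (g₁ := τ') (g₂ := fun t => g +ᵥ τ t)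
    τ'.continuous ((continuous_const_vadd g).comp τ.continuous)
    (by funext t; simp only [Function.comp_apply]; rw [hpr]; exact (h t).symm) _ hg
  exact congrFun this t

/-- The half space function. -/
noncomputable def hs (x : V) : ZMod 2 := by
  classical
  exact if 0 < x 0 ∨ (x 0 = 0 ∧ (0 < x 1 ∨ (x 1 = 0 ∧ (0 < x 2 ∨ (x 2 = 0 ∧ 0 < x 3))))) then 0
    else 1

lemma hs_neg {x : V} (hx : x ≠ 0) : hs (-x) = 1 + hs x := by
  have h2 : (1 + 1 : ZMod 2) = 0 := by decide
  have key : (0 < (-x) 0 ∨ ((-x) 0 = 0 ∧ (0 < (-x) 1 ∨ ((-x) 1 = 0 ∧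
      (0 < (-x) 2 ∨ ((-x) 2 = 0 ∧ 0 < (-x) 3)))))) ↔
      ¬ (0 < x 0 ∨ (x 0 = 0 ∧ (0 < x 1 ∨ (x 1 = 0 ∧ (0 < x 2 ∨ (x 2 = 0 ∧ 0 < x 3)))))) := by
    simp only [PiLp.neg_apply, neg_eq_zero, Left.neg_pos_iff]
    rcases lt_trichotomy (x 0) 0 with h0 | h0 | h0
    · simp [h0, h0.not_gt]; 
      intro h; exact absurd h h0.ne
    · rcases lt_trichotomy (x 1) 0 with h1 | h1 | h1
      · simp [h0, h1, h1.not_gt]
        intro h; exact absurd h h1.ne
      · rcases lt_trichotomy (x 2) 0 with h2 | h2 | h2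
        · simp [h0, h1, h2, h2.not_gt]
          intro h; exact absurd h h2.ne
        · rcases lt_trichotomy (x 3) 0 with h3 | h3 | h3
          · simp [h0, h1, h2, h3]; exact h3.le
          · exfalso; apply hx
            ext i; fin_cases i <;> simp [h0, h1, h2, h3]
          · simp [h0, h1, h2, h3]; exact h3.le
        · simp [h0, h1, h2, h2.not_gt]
          intro h; exact absurd h h2.ne'
      · simp [h0, h1, h1.not_gt]
        intro h; exact absurd h h1.ne'
    · simp [h0, h0.not_gt]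
      intro h; exact absurd h h0.ne'
  unfold hs
  by_cases h : (0 < x 0 ∨ (x 0 = 0 ∧ (0 < x 1 ∨ (x 1 = 0 ∧ (0 < x 2 ∨ (x 2 = 0 ∧ 0 < x 3))))))
  · rw [if_neg (fun h' => key.1 h' h), if_pos h, add_zero]
  · rw [if_pos (key.2 h), if_neg h, h2]

/-- The label of a point of the cover. -/
noncomputable def lab (p : X) : Gam := (hs p.1, hs p.2.1)

lemma hs_sgS (a : ZMod 2) (x : Sph) : hs (sgS a x) = a + hs x := by
  rcases zmod2_cases a with rfl | rfl
  · simp
  · rw [sgS_coe, sg_one, neg_one_smul, hs_neg]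
    intro h
    have := norm_sph x
    rw [h, norm_zero] at this
    exact zero_ne_one this

lemma lab_vadd (g : Gam) (p : X) : lab (g +ᵥ p) = g + lab p := by
  rw [vadd_def]
  unfold lab
  simp only [hs_sgS]
  rfl

/-- value of the cochain attached to a function of the vertex labels. -/
noncomputable def cval {n : ℕ} (f : (Fin (n + 1) → Gam) → ZMod 2) (ρ : C(Del n, Seg)) : ZMod 2 :=
  f fun k => lab ((exists_lift ρ).choose (stdSimplex.vertex k))

/-- invariance under the diagonal translation -/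
def Inv {n : ℕ} (f : (Fin (n + 1) → Gam) → ZMod 2) : Prop :=
  ∀ (g : Gam) (c : Fin (n + 1) → Gam), f (fun k => g + c k) = f c

lemma cval_eq {n : ℕ} {f : (Fin (n + 1) → Gam) → ZMod 2} (hf : Inv f) (ρ : C(Del n, Seg))
    (τ : C(Del n, X)) (hτ : ∀ t, pr (τ t) = ρ t) :
    cval f ρ = f fun k => lab (τ (stdSimplex.vertex k)) := by
  obtain ⟨g, hg⟩ := lift_unique τ (exists_lift ρ).choose
    (fun t => by rw [hτ, (exists_lift ρ).choose_spec])
  unfold cval
  simp only [hg, lab_vadd]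
  exact hf g _

/-- the simplicial coboundary of a function of labels -/
def dlt {n : ℕ} (f : (Fin (n + 1) → Gam) → ZMod 2) (c : Fin (n + 2) → Gam) : ZMod 2 :=
  ∑ i : Fin (n + 2), f (fun k => c (i.succAbove k))

lemma sum_cval_face {n : ℕ} {f : (Fin (n + 1) → Gam) → ZMod 2} (hf : Inv f)
    (hd : ∀ c, dlt f c = 0) (ρ : C(Del (n + 1), Seg)) :
    ∑ i : Fin (n + 2), cval f (ρ.comp (face i)) = 0 := by
  obtain ⟨τ, hτ⟩ := exists_lift ρ
  rw [← hd (fun k => lab (τ (stdSimplex.vertex k)))]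
  unfold dlt
  refine Finset.sum_congr rfl fun i _ => ?_
  rw [cval_eq hf (ρ.comp (face i)) (τ.comp (face i)) (fun t => hτ _)]
  congr 1
  funext k
  show lab (τ (stdSimplex.map (Fin.succAbove i) (stdSimplex.vertex k))) = _
  rw [stdSimplex.map_vertex]

end V11202.TN
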