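import Mathlib

/-! The Segre manifold of unit decomposable tensors in ℝ⁴⊗ℝ⁴⊗ℝ⁴. -/

namespace V11202.TN

open scoped RealInnerProductSpace

/-- Euclidean four-space. -/
abbrev V := EuclideanSpace ℝ (Fin 4)

/-- `ℝ⁴ ⊗ ℝ⁴ ⊗ ℝ⁴`, in coordinates. -/
abbrev E := EuclideanSpace ℝ (Fin 4 × Fin 4 × Fin 4)

/-- The decomposable tensor `x ⊗ y ⊗ z`. -/
noncomputable def T (x y z : V) : E := WithLp.toLp 2 (fun i => x i.1 * y i.2.1 * z i.2.2)

@[simp] lemma T_apply (x y z : V) (i : Fin 4 × Fin 4 × Fin 4) :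
    T x y z i = x i.1 * y i.2.1 * z i.2.2 := rfl

lemma inner_T (x y z x' y' z' : V) :
    ⟪T x y z, T x' y' z'⟫ = ⟪x, x'⟫ * ⟪y, y'⟫ * ⟪z, z'⟫ := by
  simp only [PiLp.inner_apply, T_apply, RCLike.inner_apply, conj_trivial, Fintype.sum_prod_type]
  rw [Finset.sum_mul_sum, Finset.sum_mul]
  refine Finset.sum_congr rfl fun i _ => ?_
  rw [Finset.sum_mul]
  refine Finset.sum_congr rfl fun j _ => ?_
  rw [Finset.mul_sum]
  refine Finset.sum_congr rfl fun k _ => ?_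
  ring

lemma norm_T (x y z : V) : ‖T x y z‖ = ‖x‖ * ‖y‖ * ‖z‖ := by
  have h := inner_T x y z x y z
  simp only [real_inner_self_eq_norm_sq] at h
  have h0 : 0 ≤ ‖x‖ * ‖y‖ * ‖z‖ := by positivity
  rw [← abs_of_nonneg h0, ← abs_of_nonneg (norm_nonneg (T x y z)), ← sq_eq_sq_iff_abs_eq_abs, h]
  ring

lemma T_smul1 (c : ℝ) (x y z : V) : T (c • x) y z = c • T x y z := by
  ext i; simp; ring
lemma T_smul2 (c : ℝ) (x y z : V) : T x (c • y) z = c • T x y z := by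
  ext i; simp; ring
lemma T_smul3 (c : ℝ) (x y z : V) : T x y (c • z) = c • T x y z := by
  ext i; simp; ring

/-- A unit vector is determined by its inner products of modulus one. -/
lemma eq_of_inner_one {x y : V} (hx : ‖x‖ = 1) (hy : ‖y‖ = 1) (h : ⟪x, y⟫ = 1) : x = y := by
  have := inner_eq_one_iff_of_norm_eq_one (𝕜 := ℝ) hx hy
  exact this.1 h

lemma eq_neg_of_inner_neg_one {x y : V} (hx : ‖x‖ = 1) (hy : ‖y‖ = 1) (h : ⟪x, y⟫ = -1) :
    y = -x := by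
  have h1 : ⟪x, -y⟫ = 1 := by rw [inner_neg_right, h]; norm_num
  have := eq_of_inner_one hx (by rw [norm_neg]; exact hy) h1
  rw [this, neg_neg]

lemma abs_inner_le_one {x y : V} (hx : ‖x‖ = 1) (hy : ‖y‖ = 1) : |⟪x, y⟫| ≤ 1 := by
  have := abs_real_inner_le_norm x y
  rwa [hx, hy, mul_one] at this

/-- Two unit decomposable tensors agree iff the factors agree up to signs with product one. -/
lemma T_eq_iff {x y z x' y' z' : V} (hx : ‖x‖ = 1) (hy : ‖y‖ = 1) (hz : ‖z‖ = 1)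
    (hx' : ‖x'‖ = 1) (hy' : ‖y'‖ = 1) (hz' : ‖z'‖ = 1) :
    T x y z = T x' y' z' ↔
      ((x' = x ∧ y' = y ∧ z' = z) ∨ (x' = -x ∧ y' = -y ∧ z' = z) ∨
        (x' = -x ∧ y' = y ∧ z' = -z) ∨ (x' = x ∧ y' = -y ∧ z' = -z)) := by
  constructor
  · intro h
    have h1 : ⟪T x y z, T x' y' z'⟫ = 1 := by
      rw [← h, real_inner_self_eq_norm_sq, norm_T, hx, hy, hz]; norm_num
    rw [inner_T] at h1
    have ha := abs_inner_le_one hx hx'
    have hb := abs_inner_le_one hy hy'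
    have hc := abs_inner_le_one hz hz'
    have habs : |⟪x, x'⟫| * |⟪y, y'⟫| * |⟪z, z'⟫| = 1 := by
      rw [← abs_mul, ← abs_mul, h1, abs_one]
    have ha1 : |⟪x, x'⟫| = 1 := by
      refine le_antisymm ha ?_
      have : |⟪x, x'⟫| * |⟪y, y'⟫| * |⟪z, z'⟫| ≤ |⟪x, x'⟫| * 1 * 1 := by gcongr
      rw [habs] at this; linarith
    have hb1 : |⟪y, y'⟫| = 1 := by
      refine le_antisymm hb ?_
      have : |⟪x, x'⟫| * |⟪y, y'⟫| * |⟪z, z'⟫| ≤ 1 * |⟪y, y'⟫| * 1 := by gcongr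
      rw [habs] at this; linarith
    have hc1 : |⟪z, z'⟫| = 1 := by
      refine le_antisymm hc ?_
      have : |⟪x, x'⟫| * |⟪y, y'⟫| * |⟪z, z'⟫| ≤ 1 * 1 * |⟪z, z'⟫| := by gcongr
      rw [habs] at this; linarith
    rcases (abs_eq (by norm_num)).1 ha1 with ha | ha <;>
    rcases (abs_eq (by norm_num)).1 hb1 with hb | hb <;>
    rcases (abs_eq (by norm_num)).1 hc1 with hc | hc <;>
    rw [ha, hb, hc] at h1 <;> norm_num at h1
    · exact Or.inl ⟨(eq_of_inner_one hx hx' ha).symm, (eq_of_inner_one hy hy' hb).symm,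
        (eq_of_inner_one hz hz' hc).symm⟩
    · exact Or.inr (Or.inr (Or.inr ⟨(eq_of_inner_one hx hx' ha).symm,
        eq_neg_of_inner_neg_one hy hy' hb, eq_neg_of_inner_neg_one hz hz' hc⟩))
    · exact Or.inr (Or.inr (Or.inl ⟨eq_neg_of_inner_neg_one hx hx' ha,
        (eq_of_inner_one hy hy' hb).symm, eq_neg_of_inner_neg_one hz hz' hc⟩))
    · exact Or.inr (Or.inl ⟨eq_neg_of_inner_neg_one hx hx' ha,
        eq_neg_of_inner_neg_one hy hy' hb, (eq_of_inner_one hz hz' hc).symm⟩)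
  · rintro (⟨rfl, rfl, rfl⟩ | ⟨rfl, rfl, rfl⟩ | ⟨rfl, rfl, rfl⟩ | ⟨rfl, rfl, rfl⟩)
    · rfl
    · ext i; simp
    · ext i; simp
    · ext i; simp

/-- The manifold of unit decomposable tensors. -/
def Seg : Set E := {p | ∃ x y z : V, ‖x‖ = 1 ∧ ‖y‖ = 1 ∧ ‖z‖ = 1 ∧ T x y z = p}

lemma continuous_T : Continuous (fun q : V × V × V => T q.1 q.2.1 q.2.2) := by
  unfold T
  fun_prop

end V11202.TN
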