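import Pool.Agent.V11202.TN.Cov

/-! The geodesic symmetries of the Segre manifold. -/

namespace V11202.TN

open scoped RealInnerProductSpace

/-- Reflection of `ℝ⁴` in the line of the unit vector `x`. -/
noncomputable def R (x a : V) : V := (2 * ⟪x, a⟫) • x - a

lemma R_apply (x a : V) (i : Fin 4) : R x a i = 2 * ⟪x, a⟫ * x i - a i := rfl

lemma inner_eq_sum (x a : V) : ⟪x, a⟫ = ∑ l, x l * a l := by
  simp only [PiLp.inner_apply, RCLike.inner_apply, conj_trivial]
  refine Finset.sum_congr rfl fun i _ => by ring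

lemma sum_sq_one {x : V} (hx : ‖x‖ = 1) : ∑ l, x l * x l = 1 := by
  rw [← inner_eq_sum, real_inner_self_eq_norm_sq, hx]; norm_num

lemma R_self {x : V} (hx : ‖x‖ = 1) : R x x = x := by
  unfold R
  rw [real_inner_self_eq_norm_sq, hx]
  module

lemma R_orth {x a : V} (h : ⟪x, a⟫ = 0) : R x a = -a := by
  unfold R
  rw [h]; simp

lemma R_smul (x a : V) (c : ℝ) : R x (c • a) = c • R x a := by
  unfold R
  rw [real_inner_smul_right, smul_sub, smul_smul]
  congr 2; ring

lemma R_add (x a b : V) : R x (a + b) = R x a + R x b := by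
  unfold R
  rw [inner_add_right]
  module

lemma norm_R {x : V} (hx : ‖x‖ = 1) (a : V) : ‖R x a‖ = ‖a‖ := by
  rw [← abs_of_nonneg (norm_nonneg (R x a)), ← abs_of_nonneg (norm_nonneg a),
    ← sq_eq_sq_iff_abs_eq_abs]
  unfold R
  rw [norm_sub_sq_real, norm_smul, hx, real_inner_smul_left, mul_pow, Real.norm_eq_abs, sq_abs]
  ring

/-- Auxiliary: action on the first index. -/
noncomputable def L1 (x : V) : E →ₗ[ℝ] E where
  toFun q := WithLp.toLp 2 fun i => 2 * x i.1 * (∑ l, x l * q (l, i.2.1, i.2.2)) - q i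
  map_add' q r := by
    ext i
    simp only [PiLp.add_apply, mul_add, Finset.sum_add_distrib]
    ring
  map_smul' c q := by
    ext i
    simp only [PiLp.smul_apply, smul_eq_mul, RingHom.id_apply]
    have : ∑ l, x l * (c * q (l, i.2.1, i.2.2)) = c * ∑ l, x l * q (l, i.2.1, i.2.2) := by
      rw [Finset.mul_sum]
      refine Finset.sum_congr rfl fun l _ => by ring
    rw [this]; ring

/-- Auxiliary: action on the second index. -/
noncomputable def L2 (x : V) : E →ₗ[ℝ] E where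
  toFun q := WithLp.toLp 2 fun i => 2 * x i.2.1 * (∑ l, x l * q (i.1, l, i.2.2)) - q i
  map_add' q r := by
    ext i
    simp only [PiLp.add_apply, mul_add, Finset.sum_add_distrib]
    ring
  map_smul' c q := by
    ext i
    simp only [PiLp.smul_apply, smul_eq_mul, RingHom.id_apply]
    have : ∑ l, x l * (c * q (i.1, l, i.2.2)) = c * ∑ l, x l * q (i.1, l, i.2.2) := by
      rw [Finset.mul_sum]
      refine Finset.sum_congr rfl fun l _ => by ring
    rw [this]; ring

/-- Auxiliary: action on the third index. -/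
noncomputable def L3 (x : V) : E →ₗ[ℝ] E where
  toFun q := WithLp.toLp 2 fun i => 2 * x i.2.2 * (∑ l, x l * q (i.1, i.2.1, l)) - q i
  map_add' q r := by
    ext i
    simp only [PiLp.add_apply, mul_add, Finset.sum_add_distrib]
    ring
  map_smul' c q := by
    ext i
    simp only [PiLp.smul_apply, smul_eq_mul, RingHom.id_apply]
    have : ∑ l, x l * (c * q (i.1, i.2.1, l)) = c * ∑ l, x l * q (i.1, i.2.1, l) := by
      rw [Finset.mul_sum]
      refine Finset.sum_congr rfl fun l _ => by ring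
    rw [this]; ring

lemma L1_apply (x : V) (q : E) (i : Fin 4 × Fin 4 × Fin 4) :
    L1 x q i = 2 * x i.1 * (∑ l, x l * q (l, i.2.1, i.2.2)) - q i := rfl
lemma L2_apply (x : V) (q : E) (i : Fin 4 × Fin 4 × Fin 4) :
    L2 x q i = 2 * x i.2.1 * (∑ l, x l * q (i.1, l, i.2.2)) - q i := rfl
lemma L3_apply (x : V) (q : E) (i : Fin 4 × Fin 4 × Fin 4) :
    L3 x q i = 2 * x i.2.2 * (∑ l, x l * q (i.1, i.2.1, l)) - q i := rfl

lemma sum_aux {x : V} (hx : ‖x‖ = 1) (q : Fin 4 → ℝ) :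
    ∑ l, x l * (2 * x l * (∑ m, x m * q m) - q l) = ∑ m, x m * q m := by
  have h := sum_sq_one hx
  have key : ∀ s : ℝ, ∑ l, x l * (2 * x l * s - q l) =
      2 * (∑ l, x l * x l) * s - ∑ l, x l * q l := by
    intro s
    rw [Finset.mul_sum, Finset.sum_mul, ← Finset.sum_sub_distrib]
    refine Finset.sum_congr rfl fun l _ => by ring
  rw [key, h]; ring

lemma sq_aux {x : V} (hx : ‖x‖ = 1) (q : Fin 4 → ℝ) :
    ∑ l, (2 * x l * (∑ m, x m * q m) - q l) ^ 2 = ∑ m, q m ^ 2 := by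
  have h := sum_sq_one hx
  have key : ∀ s : ℝ, ∑ l, (2 * x l * s - q l) ^ 2 =
      4 * (∑ l, x l * x l) * s ^ 2 - 4 * s * (∑ l, x l * q l) + ∑ l, q l ^ 2 := by
    intro s
    rw [Finset.mul_sum, Finset.sum_mul, Finset.mul_sum, ← Finset.sum_sub_distrib,
      ← Finset.sum_add_distrib]
    refine Finset.sum_congr rfl fun l _ => by ring
  rw [key, h]; ring

lemma L1_invol {x : V} (hx : ‖x‖ = 1) : Function.Involutive (L1 x) := by
  intro q
  ext i
  rw [L1_apply]
  simp only [L1_apply]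
  rw [sum_aux hx fun l => q (l, i.2.1, i.2.2)]
  ring

lemma L2_invol {x : V} (hx : ‖x‖ = 1) : Function.Involutive (L2 x) := by
  intro q
  ext i
  rw [L2_apply]
  simp only [L2_apply]
  rw [sum_aux hx fun l => q (i.1, l, i.2.2)]
  ring

lemma L3_invol {x : V} (hx : ‖x‖ = 1) : Function.Involutive (L3 x) := by
  intro q
  ext i
  rw [L3_apply]
  simp only [L3_apply]
  rw [sum_aux hx fun l => q (i.1, i.2.1, l)]
  ring

lemma norm_sq_E (q : E) : ‖q‖ ^ 2 = ∑ i, ∑ j, ∑ k, q (i, j, k) ^ 2 := by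
  rw [EuclideanSpace.norm_sq_eq]
  simp only [Fintype.sum_prod_type, Real.norm_eq_abs, sq_abs]

lemma norm_eq_of_sq {q r : E} (h : ‖q‖ ^ 2 = ‖r‖ ^ 2) : ‖q‖ = ‖r‖ := by
  rwa [sq_eq_sq₀ (norm_nonneg _) (norm_nonneg _)] at h

lemma L1_norm {x : V} (hx : ‖x‖ = 1) (q : E) : ‖L1 x q‖ = ‖q‖ := by
  apply norm_eq_of_sq
  rw [norm_sq_E, norm_sq_E]
  simp only [L1_apply]
  have e1 : ∀ f : Fin 4 → Fin 4 → Fin 4 → ℝ, ∑ i, ∑ j, ∑ k, f i j k = ∑ j, ∑ k, ∑ i, f i j k := by
    intro f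
    rw [Finset.sum_comm]
    refine Finset.sum_congr rfl fun j _ => ?_
    rw [Finset.sum_comm]
  refine (e1 _).trans (Eq.trans ?_ (e1 _).symm)
  refine Finset.sum_congr rfl fun j _ => Finset.sum_congr rfl fun k _ => ?_
  exact sq_aux hx fun l => q (l, j, k)

lemma L2_norm {x : V} (hx : ‖x‖ = 1) (q : E) : ‖L2 x q‖ = ‖q‖ := by
  apply norm_eq_of_sq
  rw [norm_sq_E, norm_sq_E]
  simp only [L2_apply]
  refine Finset.sum_congr rfl fun i _ => ?_
  rw [Finset.sum_comm, Finset.sum_comm (f := fun j k => q (i, j, k) ^ 2)]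
  refine Finset.sum_congr rfl fun k _ => ?_
  exact sq_aux hx fun l => q (i, l, k)

lemma L3_norm {x : V} (hx : ‖x‖ = 1) (q : E) : ‖L3 x q‖ = ‖q‖ := by
  apply norm_eq_of_sq
  rw [norm_sq_E, norm_sq_E]
  simp only [L3_apply]
  refine Finset.sum_congr rfl fun i _ => Finset.sum_congr rfl fun j _ => ?_
  exact sq_aux hx fun l => q (i, j, l)

lemma L1_T (x a b c : V) : L1 x (T a b c) = T (R x a) b c := by
  ext i
  rw [L1_apply, T_apply, T_apply, R_apply, inner_eq_sum]
  simp only [T_apply]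
  have : ∑ l, x l * (a l * b i.2.1 * c i.2.2) = (∑ l, x l * a l) * b i.2.1 * c i.2.2 := by
    rw [Finset.sum_mul, Finset.sum_mul]
    refine Finset.sum_congr rfl fun l _ => by ring
  rw [this]; ring

lemma L2_T (x a b c : V) : L2 x (T a b c) = T a (R x b) c := by
  ext i
  rw [L2_apply, T_apply, T_apply, R_apply, inner_eq_sum]
  simp only [T_apply]
  have : ∑ l, x l * (a i.1 * b l * c i.2.2) = (∑ l, x l * b l) * a i.1 * c i.2.2 := by
    rw [Finset.sum_mul, Finset.sum_mul]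
    refine Finset.sum_congr rfl fun l _ => by ring
  rw [this]; ring

lemma L3_T (x a b c : V) : L3 x (T a b c) = T a b (R x c) := by
  ext i
  rw [L3_apply, T_apply, T_apply, R_apply, inner_eq_sum]
  simp only [T_apply]
  have : ∑ l, x l * (a i.1 * b i.2.1 * c l) = (∑ l, x l * c l) * a i.1 * b i.2.1 := by
    rw [Finset.sum_mul, Finset.sum_mul]
    refine Finset.sum_congr rfl fun l _ => by ring
  rw [this]; ring

/-- isometry equivalence from an isometric involution -/
noncomputable def isoOf (L : E →ₗ[ℝ] E) (h : Function.Involutive L) (hn : ∀ q, ‖L q‖ = ‖q‖) :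
    E ≃ₗᵢ[ℝ] E := ⟨LinearEquiv.ofInvolutive L h, hn⟩

/-- The symmetry at `x ⊗ y ⊗ z`. -/
noncomputable def Sy (x y z : Sph) : E ≃ₗᵢ[ℝ] E :=
  ((isoOf (L3 z) (L3_invol (norm_sph z)) (L3_norm (norm_sph z))).trans
    (isoOf (L2 y) (L2_invol (norm_sph y)) (L2_norm (norm_sph y)))).trans
    (isoOf (L1 x) (L1_invol (norm_sph x)) (L1_norm (norm_sph x)))

lemma Sy_apply (x y z : Sph) (q : E) : Sy x y z q = L1 x (L2 y (L3 z q)) := rfl

lemma Sy_T (x y z : Sph) (a b c : V) : Sy x y z (T a b c) = T (R x a) (R y b) (R z c) := by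
  rw [Sy_apply, L3_T, L2_T, L1_T]

lemma L1_neg (x : V) : L1 (-x) = L1 x := by
  ext q i
  rw [L1_apply, L1_apply]
  simp
lemma L2_neg (x : V) : L2 (-x) = L2 x := by
  ext q i
  rw [L2_apply, L2_apply]
  simp
lemma L3_neg (x : V) : L3 (-x) = L3 x := by
  ext q i
  rw [L3_apply, L3_apply]
  simp

lemma Sy_congr {p p' : X} (h : pr p = pr p') :
    Sy p.1 p.2.1 p.2.2 = Sy p'.1 p'.2.1 p'.2.2 := by
  obtain ⟨g, rfl⟩ := (pr_eq_iff _ _).1 h
  ext1 q
  rw [Sy_apply, Sy_apply, vadd_def]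
  simp only [sgS_coe]
  rcases sg_cases g.1 with h1 | h1 <;> rcases sg_cases g.2 with h2 | h2 <;>
    rcases sg_cases (g.1 + g.2) with h3 | h3 <;> rw [h1, h2, h3] <;>
    simp only [one_smul, neg_smul, L1_neg, L2_neg, L3_neg]

open Classical in
/-- The symmetry of the Segre manifold at a point (the identity off the manifold). -/
noncomputable def sy (p : E) : E ≃ₗᵢ[ℝ] E :=
  if h : p ∈ Seg then
    let q := (surjective_pr ⟨p, h⟩).choose
    Sy q.1 q.2.1 q.2.2
  else LinearIsometryEquiv.refl ℝ E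

lemma sy_pr (p : X) : sy (pr p) = Sy p.1 p.2.1 p.2.2 := by
  have h : (pr p : E) ∈ Seg := (pr p).2
  unfold sy
  rw [dif_pos h]
  exact Sy_congr (surjective_pr ⟨pr p, h⟩).choose_spec

end V11202.TN
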